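import Pool.Agent.Lib.MP_4aeabb_an.H8K0

/-!
Graded classes: idempotents with an action of a cyclic group.
-/

namespace Pool.Agent.Lib.MP_4aeabb_an

open Finset Polynomial

variable {R : Type*} [Ring R] [Algebra ℂ R] {K : Type*} [AddCommGroup K] {p : ℕ}

/-- averaging over the cyclic group -/
noncomputable def pr (p : ℕ) (δ : R) : R := (p : ℂ)⁻¹ • ∑ k ∈ range p, δ ^ k

/-- an idempotent on which `δ` acts with order dividing `p` -/
structure Sub (p : ℕ) (δ X : R) : Prop where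
  idem : X * X = X
  comm : δ * X = X * δ
  pow : δ ^ p * X = X

/-- graded class -/
noncomputable def cl (κ : R → K) (p : ℕ) (ζ : ℂ) (δ X : R) (c : ℕ) : K := κ (pr p (ζ ^ c • δ) * X)

lemma pr_tw {δ δ' a : R} (h : δ * a = a * δ') : pr p δ * a = a * pr p δ' := by
  rw [pr, pr, smul_mul_assoc, mul_smul_comm, sum_mul, mul_sum]
  exact congrArg _ (sum_congr rfl fun k _ => ((SemiconjBy.pow_right (a := a) h.symm k)).symm)

lemma Sub.smul {δ X : R} (h : Sub p δ X) {z : ℂ} (hz : z ^ p = 1) : Sub p (z • δ) X :=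
  ⟨h.idem, by rw [smul_mul_assoc, mul_smul_comm, h.comm], by rw [_root_.smul_pow, hz, one_smul, h.pow]⟩

lemma Sub.pr_idem (hp : p ≠ 0) {δ X : R} (h : Sub p δ X) :
    pr p δ * X * (pr p δ * X) = pr p δ * X := by
  have h1 : δ * (pr p δ * X) = pr p δ * X := by
    rw [pr, smul_mul_assoc, mul_smul_comm, sum_mul, mul_sum]
    congr 1
    have := sum_range_succ (fun k => δ ^ k * X) p
    rw [sum_range_succ', h.pow, pow_zero, one_mul, add_left_inj] at this
    rw [← this]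
    exact sum_congr rfl fun k _ => by rw [← mul_assoc, pow_succ']
  have h2 : ∀ k, δ ^ k * (pr p δ * X) = pr p δ * X := fun k => by
    induction k with
    | zero => simp
    | succ k ih => rw [pow_succ, mul_assoc, h1, ih]
  rw [mul_assoc, ← mul_assoc X, ← pr_tw h.comm, mul_assoc, h.idem]
  nth_rw 1 [pr]
  rw [smul_mul_assoc, sum_mul, sum_congr rfl fun k _ => h2 k, sum_const, card_range,
    ← Nat.cast_smul_eq_nsmul ℂ, smul_smul, inv_mul_cancel₀ (by exact_mod_cast hp), one_smul]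

variable {κ : R → K} (hκ : IsCl κ) (hp : p ≠ 0) {ζ : ℂ} (hζ : ζ ^ p = 1)

omit [AddCommGroup K] hκ hp hζ in
lemma cl_smul (δ X : R) (c : ℕ) : cl κ p ζ (ζ • δ) X c = cl κ p ζ δ X (c + 1) := by
  rw [cl, cl, smul_smul, pow_succ]

omit [AddCommGroup K] in
include hζ in
lemma cl_per (δ X : R) (c : ℕ) : cl κ p ζ δ X (c + p) = cl κ p ζ δ X c := by
  rw [cl, cl, pow_add, hζ, mul_one]

include hζ in
lemma pow_pow_one (c : ℕ) : (ζ ^ c) ^ p = 1 := by rw [← pow_mul, mul_comm, pow_mul, hζ, one_pow]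

include hκ hp hζ

lemma cl_eqv {δ X δ' X' a b : R} (h : Sub p δ X) (h' : Sub p δ' X') (h1 : a * b = X)
    (h2 : b * a = X') (h3 : δ * a = a * δ') : cl κ p ζ δ X = cl κ p ζ δ' X' := by
  funext c
  have h4 : pr p (ζ ^ c • δ) * a = a * pr p (ζ ^ c • δ') :=
    pr_tw (by rw [smul_mul_assoc, mul_smul_comm, h3])
  exact hκ.eqv' (a := pr p (ζ ^ c • δ) * a) (b := b) (by rw [mul_assoc, h1]) (by
    rw [h4, ← mul_assoc, h2, pr_tw (h'.smul (pow_pow_one hζ c)).comm])
    ((h.smul (pow_pow_one hζ c)).pr_idem hp) ((h'.smul (pow_pow_one hζ c)).pr_idem hp)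

lemma cl_add {δ X Y : R} (h : Sub p δ X) (h' : Sub p δ Y) (h1 : X * Y = 0) (h2 : Y * X = 0) :
    cl κ p ζ δ (X + Y) = cl κ p ζ δ X + cl κ p ζ δ Y := by
  funext c
  have a1 := h.smul (pow_pow_one hζ c)
  have a2 := h'.smul (pow_pow_one hζ c)
  rw [cl, mul_add]
  exact hκ.add _ _ (a1.pr_idem hp) (a2.pr_idem hp)
    (by rw [mul_assoc, ← mul_assoc X, ← pr_tw a1.comm, mul_assoc, h1, mul_zero, mul_zero])
    (by rw [mul_assoc, ← mul_assoc Y, ← pr_tw a2.comm, mul_assoc, h2, mul_zero, mul_zero])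

lemma cl_tri {δ X ι : R} (h : Sub p δ X) (h1 : ι * ι = ι) (h2 : δ * ι = ι * δ)
    (h3 : ι * X * ι = X * ι) : Sub p δ (X * ι) ∧ Sub p δ (X - ι * X) ∧
      cl κ p ζ δ X = cl κ p ζ δ (X * ι) + cl κ p ζ δ (X - ι * X) := by
  have e1 : ∀ y, X * (X * y) = X * y := fun y => by rw [← mul_assoc, h.idem]
  have e2 : ∀ y, ι * (ι * y) = ι * y := fun y => by rw [← mul_assoc, h1]
  have e3 : ∀ y, ι * (X * (ι * y)) = X * (ι * y) := fun y => by
    rw [← mul_assoc, ← mul_assoc, h3, mul_assoc]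
  have e4 : ι * (X * ι) = X * ι := by rw [← mul_assoc, h3]
  have c1 : ∀ y, δ * (X * y) = X * (δ * y) := fun y => by rw [← mul_assoc, h.comm, mul_assoc]
  have c2 : ∀ y, δ * (ι * y) = ι * (δ * y) := fun y => by rw [← mul_assoc, h2, mul_assoc]
  have c3 : δ ^ p * ι = ι * δ ^ p := (Commute.pow_left h2 p :)
  have s1 : Sub p δ (X * ι) := ⟨by simp only [mul_assoc, e4, e1],
    by simp only [mul_assoc, c1, h2], by rw [← mul_assoc, h.pow]⟩
  have s2 : Sub p δ (X - ι * X) := ⟨by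
      simp only [mul_sub, sub_mul, mul_assoc, e3, h.idem]; abel,
    by simp only [mul_sub, sub_mul, mul_assoc, c2, h.comm],
    by rw [mul_sub, ← mul_assoc, c3, mul_assoc, h.pow]⟩
  have s3 : Sub p δ (X * ι * X) := ⟨by simp only [mul_assoc, e1, e3],
    by simp only [mul_assoc, c1, c2, h.comm], by rw [← mul_assoc, ← mul_assoc, h.pow]⟩
  have s4 : Sub p δ (X - X * ι * X) := ⟨by
      simp only [mul_sub, sub_mul, mul_assoc, e1, e3, h.idem]; abel,
    by simp only [mul_sub, sub_mul, mul_assoc, c1, c2, h.comm],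
    by rw [mul_sub, s3.pow, h.pow]⟩
  refine ⟨s1, s2, ?_⟩
  rw [← cl_eqv hκ hp hζ s3 s1 (a := X * ι) (b := X) rfl (by rw [e1]) s1.comm,
    ← cl_eqv hκ hp hζ s4 s2 (a := X - X * ι * X) (b := X - ι * X) (by
      simp only [mul_sub, sub_mul, mul_assoc, e1, e3, h.idem]; abel) (by
      simp only [mul_sub, sub_mul, mul_assoc, e1, e3, h.idem]; abel) s4.comm,
    ← cl_add hκ hp hζ s3 s4 (by simp only [mul_sub, mul_assoc, e1, e3, h.idem, sub_self])
      (by simp only [sub_mul, mul_assoc, e1, e3, sub_self]), add_sub_cancel]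

omit hκ hp hζ

/-- the shift on sequences -/
def sh (K : Type*) [AddCommGroup K] : Module.End ℤ (ℕ → K) :=
  LinearMap.funLeft ℤ K (fun c => c + 1)

lemma sh_pow (k : ℕ) (f : ℕ → K) (c : ℕ) : (sh K ^ k) f c = f (c + k) := by
  induction k generalizing c with
  | zero => rfl
  | succ k ih =>
    rw [pow_succ', Module.End.mul_apply]
    exact (ih (c + 1)).trans (by rw [add_assoc, add_comm 1])

lemma nil (hp : p.Prime) (a n : ℕ) (f : ℕ → K) (h1 : ∀ c, f (c + p) = f c)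
    (h2 : (n * p ^ a) • f = 0) : n • ((1 - sh K) ^ (p * a)) f = 0 := by
  obtain ⟨r, hr⟩ := exists_add_pow_prime_eq hp (1 - X : ℤ[X]) X
  obtain ⟨q, hq⟩ := sub_dvd_pow_sub_pow ((1 - X : ℤ[X]) ^ p) ((p : ℤ[X]) * -((1 - X) * X * r)) a
  rw [show (1 - X : ℤ[X]) ^ p - (p : ℤ[X]) * -((1 - X) * X * r) = 1 - X ^ p by
    rw [sub_add_cancel, one_pow] at hr; linear_combination -hr, ← pow_mul, sub_eq_iff_eq_add,
    mul_comm (1 - X ^ p), mul_pow] at hq
  have h3 := congrArg (fun g => aeval (sh K) g f) hq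
  have h4 : (1 - sh K ^ p) f = 0 := by
    funext c
    simp [sh_pow, h1]
  simp only [map_add, map_mul, map_pow, map_sub, map_one, aeval_X, map_natCast, LinearMap.add_apply,
    Module.End.mul_apply, h4, map_zero, zero_add] at h3
  rw [h3, ← Nat.cast_pow, Module.End.natCast_apply, smul_smul, ← map_nsmul, h2, map_zero]

end Pool.Agent.Lib.MP_4aeabb_an
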