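import Mathlib

/-!
Approximate unitary equivalence in a strongly self-absorbing algebra.
-/

namespace Pool.Agent.Lib.MP_4aeabb_an

open Finset Filter Topology
open scoped commutatorElement

variable {D : Type*} [CStarAlgebra D]

/-- conjugation -/
noncomputable def cj (v : unitary D) : D →⋆ₐ[ℂ] D := Unitary.conjStarAlgAut ℂ D v

lemma cj_apply (v : unitary D) (x : D) : cj v x = v * x * star (v : D) := rfl

lemma cj_mul (u v : unitary D) (x : D) : cj (u * v) x = cj u (cj v x) :=
  Unitary.conjStarAlgAut_mul_apply (S := ℂ) u v x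

lemma cj_one (x : D) : cj 1 x = x := by simp [cj_apply]

lemma cj_dist (v : unitary D) (x y : D) : dist (cj v x) (cj v y) = dist x y :=
  (StarAlgEquiv.isometry (Unitary.conjStarAlgAut ℂ D v)).dist_eq x y

lemma cj_comm {v : unitary D} {x : D} (h : Commute (v : D) x) : cj v x = x := by
  rw [cj_apply, h, mul_assoc, Unitary.mul_star_self_of_mem v.2, mul_one]

lemma hom_dist (γ : D →⋆ₐ[ℂ] D) (x y : D) : dist (γ x) (γ y) ≤ dist x y := by
  rw [dist_eq_norm, dist_eq_norm, ← map_sub]
  exact NonUnitalStarAlgHom.norm_apply_le γ _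

/-- the map on unitaries -/
def um (γ : D →⋆ₐ[ℂ] D) : unitary D →* unitary D :=
  (Unitary.map (StarMonoidHom.ofClass γ)).toMonoidHom

lemma um_coe (γ : D →⋆ₐ[ℂ] D) (v : unitary D) : (um γ v : D) = γ v := rfl

lemma cj_um (γ : D →⋆ₐ[ℂ] D) (v : unitary D) (x : D) : cj (um γ v) (γ x) = γ (cj v x) := by
  simp [cj_apply, um_coe, map_star]

/-- approximate unitary equivalence -/
def AU (N : Set (unitary D)) (f g : D → D) : Prop := ∃ F : Filter (unitary D), F.NeBot ∧
  (∀ᶠ v in F, v ∈ N) ∧ ∀ d, Tendsto (fun v => dist (cj v (f d)) (g d)) F (𝓝 0)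

namespace AU

variable {f g h : D → D}

lemma of {N : Set (unitary D)} {ι : Type*} (F : Filter ι) [F.NeBot] (v : ι → unitary D)
    (h1 : ∀ᶠ i in F, v i ∈ N) {b : D → ι → ℝ} (hb : ∀ d, Tendsto (b d) F (𝓝 0))
    (h : ∀ d i, dist (cj (v i) (f d)) (g d) ≤ b d i) : AU N f g :=
  ⟨F.map v, inferInstance, h1, fun d => tendsto_map' (squeeze_zero (fun _ => dist_nonneg) (h d) (hb d))⟩

lemma symm (h1 : AU Set.univ f g) : AU Set.univ g f := by
  obtain ⟨F, _, -, h2⟩ := h1
  refine of F (·⁻¹) (by simp) h2 fun d v => ?_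
  rw [← cj_dist v, ← cj_mul, mul_inv_cancel, cj_one, dist_comm]

lemma trans (h1 : AU Set.univ f g) (h2 : AU Set.univ g h) : AU Set.univ f h := by
  obtain ⟨F, _, -, h3⟩ := h1
  obtain ⟨G, _, -, h4⟩ := h2
  refine of (F ×ˢ G) (fun z => z.2 * z.1) (by simp) (fun d => zero_add (0 : ℝ) ▸
    ((h3 d).comp tendsto_fst).add ((h4 d).comp tendsto_snd)) fun d z => ?_
  rw [Function.comp, Function.comp, cj_mul, ← cj_dist z.2 (cj z.1 (f d))]
  exact dist_triangle _ _ _

lemma post (h1 : AU Set.univ f g) (γ : D →⋆ₐ[ℂ] D) :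
    AU Set.univ (fun d => γ (f d)) fun d => γ (g d) := by
  obtain ⟨F, _, -, h2⟩ := h1
  refine of F (um γ) (by simp) h2 fun d v => ?_
  rw [cj_um]
  exact hom_dist _ _ _

lemma desc {N : Subgroup (unitary D)} [hN : N.Normal] {γ : D → D} (h1 : AU Set.univ id γ)
    (h2 : AU N (fun d => γ (f d)) fun d => γ (g d)) : AU N f g := by
  obtain ⟨F, _, -, h3⟩ := h1
  obtain ⟨G, _, h5, h4⟩ := h2
  refine of (F ×ˢ G) (fun z => z.1⁻¹ * z.2 * z.1)
    ((tendsto_snd.eventually h5).mono fun z hz => hN.conj_mem' _ hz _) (fun d => by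
      simpa using (((h3 (f d)).comp tendsto_fst).add ((h4 d).comp tendsto_snd)).add
        ((h3 (g d)).comp tendsto_fst)) (b := fun d z => dist (cj z.1 (f d)) (γ (f d))
          + dist (cj z.2 (γ (f d))) (γ (g d)) + dist (cj z.1 (g d)) (γ (g d))) fun d z => ?_
  rw [← cj_dist z.1, ← cj_mul, mul_assoc, mul_inv_cancel_left, cj_mul,
    ← cj_dist z.2 (cj z.1 (f d)), dist_comm (cj z.1 (g d)) (γ (g d))]
  exact dist_triangle4 _ _ _ _

end AU

/-- the path component of the unit -/
abbrev N0 (D : Type*) [CStarAlgebra D] := Subgroup.pathComponentOne (unitary D)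

lemma mem_N0 {u v : unitary D} (hu : u ∈ N0 D) (h : dist (v : D) u < 2) : v ∈ N0 D :=
  Joined.trans hu (Unitary.joined u v (dist_eq_norm (v : D) u ▸ h))

/-- the corner map of an isometry -/
noncomputable def lam {S : D} (hS : star S * S = 1) : unitary D →* unitary D := .mk' (fun x =>
  ⟨S * x * star S + (1 - S * star S), by
    have h1 : ∀ y, star S * (S * y) = y := fun y => by rw [← mul_assoc, hS, one_mul]
    have h2 : ∀ y, star (x : D) * (x * y) = y := fun y => by simp [← mul_assoc]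
    have h3 : ∀ y, (x : D) * (star (x : D) * y) = y := fun y => by simp [← mul_assoc]
    constructor <;> simp [mul_add, add_mul, mul_sub, sub_mul, mul_assoc, h1, h2, h3]⟩)
  fun x y => Subtype.ext (by
    have h1 : ∀ y, star S * (S * y) = y := fun y => by rw [← mul_assoc, hS, one_mul]
    simp [mul_add, add_mul, mul_sub, sub_mul, mul_assoc, h1])

lemma lam_coe {S : D} (hS : star S * S = 1) (x : unitary D) :
    (lam hS x : D) = S * x * star S + (1 - S * star S) := rfl

lemma lam_mem {S T : D} (hS : star S * S = 1) (hT : star T * T = 1) (h : star S * T = 0)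
    (a b : unitary D) : lam hS ⁅a, b⁆ ∈ N0 D := by
  have h' : star T * S = 0 := by simpa using congrArg star h
  have h1 : ∀ y, star S * (S * y) = y := fun y => by rw [← mul_assoc, hS, one_mul]
  have h2 : ∀ y, star T * (T * y) = y := fun y => by rw [← mul_assoc, hT, one_mul]
  have h3 : ∀ y, star S * (T * y) = 0 := fun y => by rw [← mul_assoc, h, zero_mul]
  have h4 : ∀ y, star T * (S * y) = 0 := fun y => by rw [← mul_assoc, h', zero_mul]
  let r : unitary D := ⟨S * star T - T * star S + (1 - S * star S - T * star T), by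
    constructor <;> simp [mul_add, add_mul, mul_sub, sub_mul, mul_assoc, h1, h2, h3, h4] <;> abel⟩
  have h5 : r ∈ N0 D := mem_N0 (one_mem _) (by
    have a1 := IsStarProjection.norm_le (S * star S + T * star T) ⟨by
      simp [IsIdempotentElem, mul_add, add_mul, mul_assoc, h1, h2, h3, h4], by simp [IsSelfAdjoint]⟩
    have a2 := CStarRing.norm_star_mul_self (x := (r : D) - 1)
    rw [show star ((r : D) - 1) * (r - 1) = S * star S + T * star T + (S * star S + T * star T) by
      simp [r, mul_add, add_mul, mul_sub, sub_mul, mul_assoc, h1, h2, h3, h4]; abel] at a2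
    rw [dist_eq_norm, OneMemClass.coe_one]
    nlinarith [norm_add_le (S * star S + T * star T) (S * star S + T * star T)])
  have h6 : lam hS b = r * lam hT b * r⁻¹ := by
    rw [eq_mul_inv_iff_mul_eq]
    exact Subtype.ext (by
      simp [r, lam_coe, mul_add, add_mul, mul_sub, sub_mul, mul_assoc, h1, h2, h3]; abel)
  have h7 : Commute (lam hS a) (lam hT b) := Subtype.ext (by
    simp [lam_coe, mul_add, add_mul, mul_sub, sub_mul, mul_assoc, h3, h4]; abel)
  rw [← QuotientGroup.eq_one_iff, ← QuotientGroup.mk'_apply] at h5 ⊢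
  rw [map_commutatorElement, map_commutatorElement, h6, map_mul, map_mul, map_inv, h5, one_mul, inv_one,
    mul_one, ← map_commutatorElement, h7.commutator_eq, map_one]

/-- a family of Cuntz isometries -/
def Cu {ι : Type*} [Fintype ι] [DecidableEq ι] (s : ι → D) : Prop :=
  (∀ i j, star (s i) * s j = if i = j then 1 else 0) ∧ ∑ i, s i * star (s i) = 1

lemma Cu.map {m : ℕ} {s : Fin m → D} (h : Cu s) (γ : D →⋆ₐ[ℂ] D) : Cu fun i => γ (s i) :=
  ⟨fun i j => by rw [← map_star, ← map_mul, h.1]; split_ifs <;> simp,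
    by simpa [map_star] using congrArg γ h.2⟩

lemma Cu.com {m : ℕ} {s : Fin (m + 2) → D} (h : Cu s) (a b : unitary D)
    (hc : ∀ i, Commute (s i) (⁅a, b⁆ : unitary D)) : ⁅a, b⁆ ∈ N0 D := by
  have h1 : ∀ A : Finset (Fin (m + 2)), ∃ u ∈ N0 D, (u : D) = ∑ i ∈ A, s i * (⁅a, b⁆ : unitary D)
      * star (s i) + (1 - ∑ i ∈ A, s i * star (s i)) := fun A => by
    induction A using Finset.induction_on with
    | empty => exact ⟨1, one_mem _, by simp⟩
    | insert i A hi ih =>
      obtain ⟨u, h2, h3⟩ := ih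
      obtain ⟨j, hj⟩ := exists_ne i
      have h4 : ∀ f : Fin (m + 2) → D, star (s i) * ∑ j ∈ A, s j * f j = 0 := fun f => by
        rw [mul_sum]
        exact sum_eq_zero fun l hl => by rw [← mul_assoc, h.1, if_neg fun c : i = l => hi (c ▸ hl), zero_mul]
      refine ⟨_, mul_mem (lam_mem (S := s i) (T := s j) (by rw [h.1, if_pos rfl]) (by rw [h.1, if_pos rfl])
        (by rw [h.1 i j, if_neg hj.symm]) a b) h2, ?_⟩
      rw [Submonoid.coe_mul, lam_coe, h3, sum_insert hi, sum_insert hi]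
      simp only [mul_add, add_mul, mul_sub, sub_mul, mul_assoc, h4, mul_zero, mul_one, one_mul]
      abel
  obtain ⟨u, h2, h3⟩ := h1 univ
  simp only [h.2, (hc _).eq, mul_assoc, ← mul_sum, mul_one, sub_self, add_zero] at h3
  exact Subtype.ext h3 ▸ h2

/-- the data of a strongly self-absorbing algebra -/
structure SSA (D : Type*) [CStarAlgebra D] where
  α : D →⋆ₐ[ℂ] D
  β : D →⋆ₐ[ℂ] D
  comm : ∀ a b, Commute (α a) (β b)
  dense : Dense {x | ∃ (n : ℕ) (a b : Fin n → D), x = ∑ i, α (a i) * β (b i)}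
  flip : ∀ (n : ℕ) (a b : Fin n → D), ‖∑ i, β (a i) * α (b i)‖ ≤ ‖∑ i, α (a i) * β (b i)‖
  func : ∀ (γ : D →⋆ₐ[ℂ] D) (n : ℕ) (a b : Fin n → D),
    ‖∑ i, α (a i) * β (γ (b i))‖ ≤ ‖∑ i, α (a i) * β (b i)‖
  au : AU Set.univ id α

namespace SSA

variable (S : SSA D)

lemma ind (B : AddSubmonoid D) (hB : IsClosed (B : Set D)) (h : ∀ a b, S.α a * S.β b ∈ B) (x : D) :
    x ∈ B :=
  closure_minimal (by rintro _ ⟨_, _, _, rfl⟩; exact sum_mem fun _ _ => h _ _) hB (S.dense x)

lemma ext {α' β' : D →⋆ₐ[ℂ] D} (hc : ∀ a b, Commute (α' a) (β' b))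
    (h : ∀ (n : ℕ) (a b : Fin n → D), ‖∑ i, α' (a i) * β' (b i)‖ ≤ ‖∑ i, S.α (a i) * S.β (b i)‖) :
    ∃ μ : D →⋆ₐ[ℂ] D, (∀ a, μ (S.α a) = α' a) ∧ ∀ b, μ (S.β b) = β' b := by
  let e := Algebra.TensorProduct.lift S.α.toAlgHom S.β.toAlgHom S.comm
  let f := Algebra.TensorProduct.lift α'.toAlgHom β'.toAlgHom hc
  have h1 : DenseRange e.toLinearMap := S.dense.mono (by
    rintro _ ⟨_, a, b, rfl⟩
    exact ⟨∑ i, a i ⊗ₜ b i, by simp [e]⟩)
  obtain ⟨μ, h2⟩ : ∃ μ : D →L[ℂ] D, ∀ x, μ (e x) = f x :=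
    ⟨_, LinearMap.extendOfNorm_eq (f := f.toLinearMap) h1 ⟨1, fun x => by
      obtain ⟨n, a, b, rfl⟩ := TensorProduct.exists_sum_tmul_eq x
      simpa [e, f] using h n a b⟩⟩
  have h3 : ∀ a b, μ (S.α a * S.β b) = α' a * β' b := fun a b => h2 (a ⊗ₜ b)
  refine ⟨{ toFun := μ, map_one' := by simpa using h3 1 1, map_zero' := map_zero μ
            map_add' := map_add μ
            map_mul' := fun x y => h1.induction_on₂ (p := fun x y => μ (x * y) = μ x * μ y)
              (isClosed_eq (by fun_prop) (by fun_prop)) (fun x y => ?_) x y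
            commutes' := fun c => ?_
            map_star' := S.ind ⟨⟨{x | μ (star x) = star (μ x)}, fun c d => ?_⟩, by simp⟩
              (isClosed_eq (by fun_prop) (by fun_prop)) fun a b => ?_ },
    fun a => by simpa using h3 a 1, fun a => by simpa using h3 1 a⟩
  · simp only [AlgHom.toLinearMap_apply, ← map_mul, h2]
  · simpa only [AlgHom.commutes] using h2 (algebraMap _ _ c)
  · simp_all
  · change μ (star _) = star _
    rw [h3, star_mul, star_mul, ← map_star, ← map_star, ← map_star, ← map_star, ← S.comm, h3, hc]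

lemma au_ab : AU Set.univ S.α S.β := by
  obtain ⟨σ, s1, s2⟩ := S.ext (fun a b => (S.comm b a).symm) S.flip
  obtain ⟨ρ, r1, r2⟩ := S.ext (β' := S.β.comp S.β) (fun a b => S.comm _ _) (S.func S.β)
  have h0 : AU Set.univ S.β fun d => S.α (S.β d) := by
    obtain ⟨F, a1, a2, a3⟩ := S.au
    exact ⟨F, a1, a2, fun d => a3 _⟩
  have h1 := h0.post σ
  simp only [s1, s2] at h1
  have h2 := h1.post ρ
  simp only [r1, r2] at h2
  exact (h2.trans (h1.post S.β).symm).trans (S.au.post S.β).symm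

lemma au0 {m : ℕ} {s : Fin (m + 2) → D} (h : Cu s) : AU (N0 D) S.α S.β := by
  refine AU.desc (S.au.trans (S.au.post S.α)) ?_
  obtain ⟨F, a1, -, a3⟩ := S.au_ab
  refine AU.of F (fun u => um S.α (um S.α u * um S.β u⁻¹)) (Eventually.of_forall fun u => ?_) a3
    fun d v => ?_
  · obtain ⟨z, hz⟩ := ((a3 (u⁻¹ : unitary D)).eventually (gt_mem_nhds zero_lt_two)).exists
    refine mem_N0 ((h.map S.β).com (um S.α (um S.α u)) (um S.α z) fun i => ?_) ?_
    · rw [← map_commutatorElement]
      exact (S.comm _ _).symm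
    · rw [← map_commutatorElement, commutatorElement_def, mul_assoc, mul_assoc, ← map_inv]
      refine (hom_dist _ _ _).trans_lt ?_
      rw [Submonoid.coe_mul, Submonoid.coe_mul _ (um S.α u), dist_eq_norm, ← mul_sub,
        CStarRing.norm_coe_unitary_mul, ← dist_eq_norm, dist_comm, ← mul_assoc]
      exact hz
  · rw [cj_um, cj_mul, cj_comm (v := um S.β v⁻¹) (S.comm _ _).symm, cj_um]
    exact (hom_dist _ _ _).trans (hom_dist _ _ _)

end SSA

end Pool.Agent.Lib.MP_4aeabb_an
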