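import Mathlib

/-!
Strongly self-absorbing C*-algebras: the definitions used in the statement.
-/

namespace Pool.Agent.Lib.MP_4aeabb_an

open Filter Topology

universe u

/-- A unital representation of `D` on a complex Hilbert space. -/
structure HRep (D : Type u) [CStarAlgebra D] where
  H : Type u
  [nacg : NormedAddCommGroup H]
  [ips : InnerProductSpace ℂ H]
  [cs : CompleteSpace H]
  hom : D →⋆ₐ[ℂ] (H →L[ℂ] H)

attribute [instance] HRep.nacg HRep.ips HRep.cs

/-- The operator by which `a` acts in the representation `π`. -/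
noncomputable def HRep.op {D : Type u} [CStarAlgebra D] (π : HRep D) (a : D) : π.H →L[ℂ] π.H := π.hom a

/-- The operator norm of a finite sum of operators. -/
noncomputable def sumNorm {E : Type u} [NormedAddCommGroup E] [NormedSpace ℂ E] {n : ℕ}
    (f : Fin n → E →L[ℂ] E) : ℝ := ‖∑ i, f i‖

/-- The operator norm of `∑ i, f i ⊗ g i` on `H ⊗ K` with its Hilbert tensor norm. -/
noncomputable def tensorNorm {H K : Type u} [NormedAddCommGroup H] [InnerProductSpace ℂ H]
    [NormedAddCommGroup K] [InnerProductSpace ℂ K] {n : ℕ} (f : Fin n → H →L[ℂ] H)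
    (g : Fin n → K →L[ℂ] K) : ℝ :=
  sumNorm (E := TensorProduct ℂ H K) fun i => TensorProduct.mapL (f i) (g i)

/-- `T` with the factor maps `ι₁ = · ⊗ 1` and `ι₂ = 1 ⊗ ·` is the minimal tensor product `D ⊗ D`. -/
structure IsMinTensor {D T : Type u} [CStarAlgebra D] [CStarAlgebra T] (ι₁ ι₂ : D → T) : Prop where
  comm : ∀ a b, ι₁ a * ι₂ b = ι₂ b * ι₁ a
  dense : Dense {x : T | ∃ (n : ℕ) (a b : Fin n → D), x = ∑ i, ι₁ (a i) * ι₂ (b i)}
  norm_eq : ∀ (n : ℕ) (a b : Fin n → D),
    IsLUB {r | ∃ π ρ : HRep D, r = tensorNorm (fun i => π.op (a i)) fun i => ρ.op (b i)}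
      ‖∑ i, ι₁ (a i) * ι₂ (b i)‖

/-- approximate unitary equivalence -/
def ApproxUnitEquiv {D T : Type u} [CStarAlgebra T] (f g : D → T) : Prop :=
  ∃ v : ℕ → unitary T, ∀ d : D,
    Tendsto (fun n => ‖star (v n : T) * f d * (v n : T) - g d‖) atTop (𝓝 0)

/-- strongly self-absorbing C*-algebras -/
def IsSSA (D : Type u) [CStarAlgebra D] : Prop :=
  TopologicalSpace.SeparableSpace D ∧ IsEmpty (D ≃⋆ₐ[ℂ] ℂ) ∧
    ∃ (T : Type u) (_ : CStarAlgebra T) (ι₁ ι₂ : D →⋆ₐ[ℂ] T), IsMinTensor ι₁ ι₂ ∧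
      ∃ φ : D ≃⋆ₐ[ℂ] T, ApproxUnitEquiv φ ι₁

/-- The class of the unit has finite order in `K₀(D)`: for some `n ≥ 1` and `k`, the identity matrices
of sizes `k` and `k + n` over `D` are Murray-von Neumann equivalent. -/
def UnitTorsion (D : Type u) [CStarAlgebra D] : Prop :=
  ∃ (k n : ℕ) (v : Matrix (Fin k) (Fin (k + n)) D),
    0 < n ∧ v * v.conjTranspose = 1 ∧ v.conjTranspose * v = 1

/-- `D` contains two isometries satisfying the relations of the Cuntz algebra `O_2`. -/
def HasO2 (D : Type u) [CStarAlgebra D] : Prop :=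
  ∃ s t : D, star s * s = 1 ∧ star t * t = 1 ∧ s * star s + t * star t = 1

end Pool.Agent.Lib.MP_4aeabb_an
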