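import Pool.Agent.Lib.MP_4aeabb_an.H8W

/-!
Fejer means and the Wiener lemma for Laurent polynomials.
-/

namespace Pool.Agent.Lib.MP_4aeabb_an

open Finset AddMonoidAlgebra UniformSpace

/-- roots of unity -/
noncomputable def mu (N : ℕ) : Finset ℂ := Polynomial.nthRootsFinset N 1

variable {N : ℕ}

lemma mem_mu (hN : 0 < N) {ω : ℂ} : ω ∈ mu N ↔ ω ^ N = 1 := Polynomial.mem_nthRootsFinset hN 1

lemma mu_norm (hN : 0 < N) {ω : ℂ} (h : ω ∈ mu N) : ‖ω‖ = 1 :=
  Complex.norm_eq_one_of_pow_eq_one ((mem_mu hN).1 h) hN.ne'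

lemma card_mu (hN : 0 < N) : (mu N).card = N :=
  (Complex.isPrimitiveRoot_exp N hN.ne').card_nthRootsFinset

lemma ne0 {z : ℂ} (hz : ‖z‖ = 1) : z ≠ 0 := by rintro rfl; simp at hz

lemma mu_shift (hN : 0 < N) {η : ℂ} (hη : η ^ N = 1) {M : Type*} [AddCommMonoid M] (F : ℂ → M) :
    ∑ ω ∈ mu N, F (η * ω) = ∑ ω ∈ mu N, F ω :=
  sum_equiv (Equiv.mulLeft₀ η (ne0 (mu_norm hN ((mem_mu hN).2 hη))))
    (fun ω => by simp [mem_mu hN, mul_pow, hη]) fun _ _ => rfl

lemma mu_orth (hN : 0 < N) {c : ℤ} (hc : |c| < N) :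
    ∑ ω ∈ mu N, ω ^ c = if c = 0 then (N : ℂ) else 0 := by
  split_ifs with h
  · simp [h, card_mu hN]
  have h1 := Complex.isPrimitiveRoot_exp N hN.ne'
  have h2 := mu_shift hN h1.pow_eq_one (fun ω => ω ^ c)
  simp only [mul_zpow, ← mul_sum] at h2
  by_contra h3
  exact h (Int.eq_zero_of_abs_lt_dvd ((h1.zpow_eq_one_iff_dvd c).1 ((mul_eq_right₀ h3).1 h2)) hc)

lemma quad {X B : Type*} [PseudoMetricSpace X] [NormedAddCommGroup B] {S : Set X} (hS : IsCompact S)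
    {F : X → B} (hF : ContinuousOn F S) {ε : ℝ} (hε : 0 < ε) :
    ∃ A, 0 ≤ A ∧ ∀ x ∈ S, ∀ y ∈ S, ‖F x - F y‖ ≤ ε + A * dist x y ^ 2 := by
  obtain ⟨η, h1, h2⟩ := Metric.uniformContinuousOn_iff.1 (hS.uniformContinuousOn_of_continuous hF) ε hε
  obtain ⟨C, hC⟩ := hS.exists_bound_of_continuousOn hF
  refine ⟨2 * |C| / η ^ 2, by positivity, fun x hx y hy => ?_⟩
  rcases lt_or_ge (dist x y) η with c | c
  · exact le_add_of_le_of_nonneg (dist_eq_norm (F x) (F y) ▸ (h2 x hx y hy c).le) (by positivity)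
  · have : 2 * |C| ≤ 2 * |C| / η ^ 2 * dist x y ^ 2 := by
      rw [div_mul_eq_mul_div, le_div_iff₀ (by positivity)]
      exact mul_le_mul_of_nonneg_left (pow_le_pow_left₀ h1.le c 2) (by positivity)
    linarith [norm_sub_le (F x) (F y), hC x hx, hC y hy, le_abs_self C]

variable {R : Type*} [NormedRing R] [NormedAlgebra ℂ R]

/-- evaluation at a point of the circle -/
noncomputable def ev {z : ℂ} (hz : ‖z‖ = 1) : L R →+* R := liftNCRingHom (RingHom.id R)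
  { toFun := fun c => algebraMap ℂ R (z ^ c.toAdd)
    map_one' := by rw [toAdd_one, zpow_zero, map_one]
    map_mul' := fun c d => by rw [toAdd_mul, zpow_add₀ (ne0 hz), map_mul] }
  fun a c => (Algebra.commutes _ _).symm

lemma ev_single {z : ℂ} (hz : ‖z‖ = 1) (c : ℤ) (a : R) : ev hz (single c a) = z ^ c • a := by
  refine (liftNCRingHom_single _ _ _ _ _).trans ?_
  rw [Algebra.smul_def, Algebra.commutes]
  rfl

lemma ev_eq {z : ℂ} (hz : ‖z‖ = 1) (x : L R) : ev hz x = ∑ c ∈ x.coeff.support, z ^ c • x.coeff c := by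
  conv_lhs => rw [← sum_coeff_single x]
  rw [Finsupp.sum, map_sum]
  exact sum_congr rfl fun c _ => ev_single hz _ _

noncomputable def fc (N : ℕ) (f : ℂ → R) (c : ℤ) : R := ((N : ℂ) ^ 2)⁻¹ • ∑ ω ∈ mu N, ω ^ (-c) • f ω

noncomputable def fej0 (N : ℕ) (f : ℂ → R) : L R :=
  ∑ a ∈ range N, ∑ b ∈ range N, single ((a : ℤ) - b) (fc N f (a - b))

lemma fej_est (hN : 0 < N) {f : ℂ → R} {z : ℂ} (hz : ‖z‖ = 1) {ε A : ℝ} (hA : 0 ≤ A)
    (hf : ∀ w, ‖w‖ = 1 → ‖f w - f z‖ ≤ ε + A * dist w z ^ 2) :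
    ‖ev hz (fej0 N f) - f z‖ ≤ ε + 4 * A / N := by
  have hN' : (0 : ℝ) < N := by exact_mod_cast hN
  obtain ⟨k, hk⟩ : ∃ k : ℂ → ℝ, ∀ ω, k ω = ((N : ℝ) ^ 2)⁻¹ * ‖∑ a ∈ range N, (z / ω) ^ a‖ ^ 2 :=
    ⟨_, fun _ => rfl⟩
  have h1 : ∀ ω ∈ mu N, (k ω : ℂ) = ((N : ℂ) ^ 2)⁻¹ * ∑ a ∈ range N, ∑ b ∈ range N,
      z ^ ((a : ℤ) - b) * ω ^ (-((a : ℤ) - b)) := fun ω hω => by
    have a1 : ‖z / ω‖ = 1 := by rw [norm_div, hz, mu_norm hN hω, div_one]
    rw [hk]
    push_cast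
    rw [← Complex.mul_conj', map_sum, sum_mul_sum]
    refine congrArg _ (sum_congr rfl fun a _ => sum_congr rfl fun b _ => ?_)
    rw [map_pow, ← Complex.inv_eq_conj a1, zpow_neg, ← div_eq_mul_inv, ← div_zpow,
      zpow_sub₀ (ne0 a1), zpow_natCast, zpow_natCast, inv_pow]
    exact (div_eq_mul_inv _ _).symm
  have h2 : ev hz (fej0 N f) = ∑ ω ∈ mu N, (k ω : ℂ) • f ω := by
    rw [sum_congr rfl fun ω hω => by rw [h1 ω hω]]
    simp only [fej0, map_sum, ev_single, fc, smul_sum, smul_smul, mul_sum, sum_smul]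
    rw [sum_comm (s := mu N)]
    refine sum_congr rfl fun a _ => ?_
    rw [sum_comm (s := mu N)]
    exact sum_congr rfl fun b _ => sum_congr rfl fun ω _ => by rw [mul_left_comm]
  have h3 : ∑ ω ∈ mu N, k ω = 1 := by
    apply Complex.ofReal_injective
    push_cast
    rw [sum_congr rfl h1, ← mul_sum, sum_comm, sum_congr rfl (g := fun _ => (N : ℂ)) fun a ha => ?_]
    · rw [sum_const, card_range, nsmul_eq_mul, ← sq, inv_mul_cancel₀ (by exact_mod_cast (by positivity))]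
    rw [sum_comm, sum_eq_single_of_mem a ha fun b hb hne => ?_]
    · simp [card_mu hN]
    · have := mem_range.1 ha
      have := mem_range.1 hb
      rw [← mul_sum, mu_orth hN (by rw [abs_lt]; omega), if_neg (by omega), mul_zero]
  have h4 : ∀ ω ∈ mu N, k ω * dist ω z ^ 2 ≤ ((N : ℝ) ^ 2)⁻¹ * 4 := fun ω hω => by
    have a0 := mu_norm hN hω
    have a1 : ‖z / ω‖ = 1 := by rw [norm_div, hz, a0, div_one]
    have a2 : dist ω z = ‖z / ω - 1‖ := by
      rw [div_sub_one (ne0 a0), norm_div, a0, div_one, dist_comm, dist_eq_norm]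
    rw [hk, mul_assoc, ← mul_pow, a2, ← norm_mul, geom_sum_mul]
    refine mul_le_mul_of_nonneg_left ?_ (by positivity)
    have := norm_sub_le ((z / ω) ^ N) 1
    rw [norm_pow, a1, one_pow, norm_one] at this
    nlinarith [norm_nonneg ((z / ω) ^ N - 1)]
  have h5 : ev hz (fej0 N f) - f z = ∑ ω ∈ mu N, (k ω : ℂ) • (f ω - f z) := by
    simp only [smul_sub, sum_sub_distrib]
    rw [h2, ← sum_smul, ← Complex.ofReal_sum, h3, Complex.ofReal_one, one_smul]
  rw [h5]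
  refine (norm_sum_le_of_le _ (n := fun ω => k ω * ε + A * (((N : ℝ) ^ 2)⁻¹ * 4))
    fun ω hω => ?_).trans (le_of_eq ?_)
  · have a0 : 0 ≤ k ω := by rw [hk]; positivity
    rw [norm_smul, Complex.norm_real, Real.norm_of_nonneg a0]
    nlinarith [mul_le_mul_of_nonneg_left (hf ω (mu_norm hN hω)) a0,
      mul_le_mul_of_nonneg_left (h4 ω hω) hA]
  · rw [sum_add_distrib, ← sum_mul, h3, sum_const, card_mu hN, nsmul_eq_mul]
    field_simp

lemma norm_le_ev {x : L R} {B : ℕ} (hB : ∀ c ∈ x.coeff.support, |c| ≤ B) {θ : ℝ} (h0 : 0 ≤ θ)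
    (hθ : ∀ (z : ℂ) (hz : ‖z‖ = 1), ‖ev hz x‖ ≤ θ) : ‖x‖ ≤ (2 * B + 1) * θ := by
  have hM : 0 < 2 * B + 1 := by omega
  have h1 : ∀ c ∈ x.coeff.support, ‖x.coeff c‖ ≤ θ := fun c hc => by
    have a1 : ∑ ω ∈ mu (2 * B + 1), ω ^ (-c) • ∑ d ∈ x.coeff.support, ω ^ d • x.coeff d
        = ((2 * B + 1 : ℕ) : ℂ) • x.coeff c := by
      simp only [smul_sum, smul_smul]
      rw [sum_comm, sum_eq_single_of_mem c hc fun d hd hne => ?_, ← sum_smul,
        sum_congr rfl fun ω hω => zpow_neg_mul_zpow_self c (ne0 (mu_norm hM hω)), sum_const,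
        card_mu hM, nsmul_one]
      have b1 := abs_le.1 (hB c hc)
      have b2 := abs_le.1 (hB d hd)
      rw [← sum_smul, sum_congr rfl fun ω hω => (zpow_add₀ (ne0 (mu_norm hM hω)) _ _).symm,
        mu_orth hM (by rw [abs_lt]; push_cast; omega), if_neg (by omega), zero_smul]
    have a2 := norm_sum_le_of_le (mu (2 * B + 1)) (n := fun _ => θ) (f := fun ω => ω ^ (-c) •
      ∑ d ∈ x.coeff.support, ω ^ d • x.coeff d) fun ω hω => by
        rw [norm_smul, norm_zpow, mu_norm hM hω, one_zpow, one_mul, ← ev_eq (mu_norm hM hω)]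
        exact hθ _ _
    rw [a1, norm_smul, Complex.norm_natCast, sum_const, card_mu hM, nsmul_eq_mul] at a2
    exact le_of_mul_le_mul_left a2 (by positivity)
  refine (sum_le_card_nsmul _ _ _ h1).trans ?_
  rw [nsmul_eq_mul]
  refine mul_le_mul_of_nonneg_right ?_ h0
  have := card_le_card (show x.coeff.support ⊆ Icc (-B : ℤ) B from fun c hc =>
    mem_Icc.2 (abs_le.1 (hB c hc)))
  rw [Int.card_Icc] at this
  exact_mod_cast (by omega)

lemma unit_of {M : Type*} [Monoid M] {a b c : M} (h1 : IsUnit (a * b)) (h2 : IsUnit (c * a)) :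
    IsUnit a := by
  obtain ⟨u, hu⟩ := h1.exists_right_inv
  obtain ⟨v, hv⟩ := h2.exists_left_inv
  rw [mul_assoc] at hu
  rw [← mul_assoc] at hv
  exact ⟨⟨a, b * u, hu, left_inv_eq_right_inv hv hu ▸ hv⟩, rfl⟩

lemma wiener0 (g : L R) {θ : ℝ} (h0 : 0 ≤ θ) (h1 : θ < 1)
    (hθ : ∀ (z : ℂ) (hz : ‖z‖ = 1), ‖1 - ev hz g‖ ≤ θ) : IsUnit (g : W R) := by
  obtain ⟨x, rfl⟩ : ∃ x, g = 1 - x := ⟨1 - g, by simp⟩
  simp only [map_sub, map_one, sub_sub_cancel] at hθ
  obtain ⟨B, hB⟩ : ∃ B : ℕ, ∀ c ∈ x.coeff.support, |c| ≤ B :=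
    ⟨x.coeff.support.sup Int.natAbs, fun c hc => by
      rw [← Int.natCast_natAbs]; exact_mod_cast le_sup (f := Int.natAbs) hc⟩
  have h2 : ∀ n : ℕ, ∀ c ∈ (x ^ n).coeff.support, |c| ≤ (n * B : ℕ) := fun n => by
    induction n with
    | zero =>
      intro c hc
      rw [pow_zero, one_def, coeff_single] at hc
      simp [mem_singleton.1 (Finsupp.support_single_subset hc)]
    | succ n ih =>
      intro c hc
      rw [pow_succ] at hc
      obtain ⟨a, ha, b, hb, rfl⟩ := mem_add.1 (support_coeff_mul_subset _ _ hc)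
      push_cast at ih ⊢
      linarith [abs_add_le a b, ih a ha, hB b hb]
  have h3 : Filter.Tendsto (fun n : ℕ => 2 * B * (n * θ ^ n) + θ ^ n) Filter.atTop (nhds (2 * B * 0 + 0)) :=
    ((tendsto_self_mul_const_pow_of_lt_one h0 h1).const_mul _).add
      (tendsto_pow_atTop_nhds_zero_of_lt_one h0 h1)
  obtain ⟨n, n1, n2⟩ := ((h3.eventually (gt_mem_nhds (by simp : 2 * (B : ℝ) * 0 + 0 < 1))).and
    (Filter.eventually_gt_atTop 0)).exists
  have h4 := norm_le_ev (h2 n) (pow_nonneg h0 n) fun z hz => by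
    rw [map_pow]
    exact (norm_pow_le' _ n2).trans (pow_le_pow_left₀ (norm_nonneg _) (hθ z hz) n)
  have h5 : IsUnit (1 - (x : W R) ^ n) := isUnit_one_sub_of_norm_lt_one (by
    rw [show (x : W R) ^ n = (x ^ n : L R) from (map_pow Completion.coeRingHom x n).symm,
      Completion.norm_coe]
    push_cast at h4
    linarith)
  rw [Completion.coe_sub, Completion.coe_one]
  exact unit_of (mul_neg_geom_sum (x : W R) n ▸ h5) (geom_sum_mul_neg (x : W R) n ▸ h5)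

theorem wiener [CompleteSpace R] (g : L R) (h : ∀ (z : ℂ) (hz : ‖z‖ = 1), IsUnit (ev hz g)) :
    IsUnit (g : W R) := by
  obtain ⟨F, hF⟩ : ∃ F : ℂ → R, F = fun z => ∑ c ∈ g.coeff.support, z ^ c • g.coeff c := ⟨_, rfl⟩
  have h1 : ∀ (z : ℂ) (hz : ‖z‖ = 1), ev hz g = F z := fun z hz => by rw [ev_eq, hF]
  have h2 : ContinuousOn F (Metric.sphere 0 1) := hF ▸ continuousOn_finsetSum _ fun c _ =>
    (continuousOn_id.zpow₀ c fun z hz => Or.inl (ne0 (by simpa using hz))).smul continuousOn_const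
  have h3 : ContinuousOn (fun z => Ring.inverse (F z)) (Metric.sphere 0 1) := fun z hz => by
    obtain ⟨u, hu⟩ := h z (by simpa using hz)
    rw [h1] at hu
    exact ContinuousAt.comp_continuousWithinAt (hu ▸ NormedRing.inverse_continuousAt u) (h2 z hz)
  obtain ⟨C, hC⟩ := (isCompact_sphere (0 : ℂ) 1).exists_bound_of_continuousOn h2
  have hC0 : 0 ≤ C := (norm_nonneg _).trans (hC 1 (by simp))
  obtain ⟨ε, e1, e2⟩ := exists_pos_mul_lt zero_lt_one (2 * C)
  obtain ⟨A, hA, h4⟩ := quad (isCompact_sphere (0 : ℂ) 1) h3 e1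
  obtain ⟨N, hN⟩ := exists_nat_gt (4 * A / ε)
  have hN0 : (0 : ℝ) < N := lt_of_le_of_lt (by positivity) hN
  have h5 : ∀ (z : ℂ) (hz : ‖z‖ = 1), ‖ev hz (fej0 N fun z => Ring.inverse (F z))
      - Ring.inverse (F z)‖ ≤ 2 * ε := fun z hz => by
    refine (fej_est (by exact_mod_cast hN0) hz hA fun w hw =>
      h4 w (by simpa using hw) z (by simpa using hz)).trans ?_
    rw [div_lt_iff₀ e1, mul_comm (N : ℝ), ← div_lt_iff₀ hN0] at hN
    linarith
  refine unit_of (b := (fej0 N fun z => Ring.inverse (F z) : L R))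
    (c := (fej0 N fun z => Ring.inverse (F z) : L R)) ?_ ?_
  all_goals
    rw [← Completion.coe_mul]
    refine wiener0 _ (θ := 2 * C * ε) (by positivity) e2 fun z hz => ?_
    have a1 := h z hz
    have a2 := mul_le_mul (hC z (by simpa using hz)) (h5 z hz) (norm_nonneg _) hC0
    rw [h1] at a1
    rw [map_mul, h1, norm_sub_rev]
  · rw [← Ring.mul_inverse_cancel _ a1, ← mul_sub]
    linarith [norm_mul_le (F z) (ev hz (fej0 N fun z => Ring.inverse (F z)) - Ring.inverse (F z))]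
  · rw [← Ring.inverse_mul_cancel _ a1, ← sub_mul]
    linarith [norm_mul_le (ev hz (fej0 N fun z => Ring.inverse (F z)) - Ring.inverse (F z)) (F z)]

end Pool.Agent.Lib.MP_4aeabb_an
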