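import Pool.Agent.Lib.MP_4aeabb_an.H8Toep

/-!
Equivariant equivalences over spheres force divisibility by powers of `1 - T`.
-/

namespace Pool.Agent.Lib.MP_4aeabb_an

open Finset Metric

variable {R : Type*} [NormedRing R] [CompleteSpace R] [NormedAlgebra ℂ R]

/-- a path from a lower sphere to the circle -/
noncomputable def gam {k : ℕ} (y : ℝ × (Fin k → ℂ)) (z : ℂ) : Fin (k + 1) → ℂ :=
  Fin.cons (y.1 * z) ((1 - y.1 : ℂ) • y.2)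

lemma gam_ne {k : ℕ} {y : ℝ × (Fin k → ℂ)} {z : ℂ} (hy : ‖y.2‖ = 1) (hz : ‖z‖ = 1) : ‖gam y z‖ ≠ 0 := by
  rw [norm_ne_zero_iff]
  intro h
  have h1 : y.1 * z = 0 := congrFun h 0
  have h2 : (1 - y.1 : ℂ) • y.2 = 0 := funext fun i => congrFun h i.succ
  rw [(mul_eq_zero.1 h1).resolve_right (ne0 hz), sub_zero, one_smul] at h2
  simp [h2] at hy

lemma gam_smul {k : ℕ} (y : ℝ × (Fin k → ℂ)) (z ζ : ℂ) : gam (y.1, ζ • y.2) (ζ * z) = ζ • gam y z :=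
  funext fun i => by
    induction i using Fin.cases <;> simp [gam, mul_left_comm]

omit [CompleteSpace R] in
lemma mt_cont {Y ι : Type*} [TopologicalSpace Y] [Fintype ι] {S : Set Y} (σ τ : ι → R)
    {A : Y → Matrix ι ι R} (h : ∀ i j, ContinuousOn (fun y => A y i j) S) :
    ContinuousOn (fun y => mt σ τ (A y)) S :=
  continuousOn_finsetSum _ fun i _ => continuousOn_finsetSum _ fun j _ =>
    (continuousOn_const.mul (h i j)).mul continuousOn_const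

variable {K : Type*} [AddCommGroup K] {κ : R → K} {p : ℕ} {ζ : ℂ}

theorem step (w : Two R) (hκ : IsCl κ) (hp0 : p ≠ 0) (hp : ζ ^ p = 1) {k : ℕ} {δE E δF F : R}
    (hE : Sub p δE E) (hF : Sub p δF F)
    (h : Van (sphere (0 : Fin (k + 2) → ℂ) 1) (ζ • ·) δE δF (fun _ => E) fun _ => F) :
    ∃ δ E' F', Sub p δ E' ∧ Sub p δ F' ∧
      Van (sphere (0 : Fin (k + 1) → ℂ) 1) (ζ • ·) δ δ (fun _ => E') (fun _ => F') ∧
      (1 - sh K) (cl κ p ζ δ F' - cl κ p ζ δ E') = cl κ p ζ δF F - cl κ p ζ δE E := by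
  have hζ : ‖ζ‖ = 1 := Complex.norm_eq_one_of_pow_eq_one hp hp0
  obtain ⟨U, hU, h⟩ := h
  obtain ⟨Φ, hΦ⟩ : ∃ Φ : ℝ × (Fin (k + 1) → ℂ) → ℂ → R,
    Φ = fun y z => U (((‖gam y z‖ : ℂ)⁻¹) • gam y z) := ⟨_, rfl⟩
  have h1 : ∀ {y : ℝ × (Fin (k + 1) → ℂ)} {z : ℂ}, y.2 ∈ sphere 0 1 → ‖z‖ = 1 →
      ((‖gam y z‖ : ℂ)⁻¹) • gam y z ∈ sphere 0 1 := fun hy hz => by
    simp [norm_smul, gam_ne (by simpa using hy) hz]
  have h2 : ∀ y ∈ Set.Icc (0 : ℝ) 1 ×ˢ sphere (0 : Fin (k + 1) → ℂ) 1, ∀ z, ‖z‖ = 1 →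
      (∃ V, Pr E F (Φ y z) V) ∧ Φ y z * δE = δF * Φ (y.1, ζ • y.2) (ζ * z) := fun y hy z hz => by
    have := h _ (h1 hy.2 hz)
    rw [hΦ]
    simpa only [gam_smul, norm_smul, hζ, one_mul, smul_comm ζ] using this
  have hx : (fun _ => 1) ∈ sphere (0 : Fin (k + 1) → ℂ) 1 := by simp
  obtain ⟨V0, h0⟩ := (h2 (0, fun _ => 1) ⟨by simp, hx⟩ 1 norm_one).1
  have hg : Continuous fun z : (ℝ × (Fin (k + 1) → ℂ)) × ℂ => gam z.1 z.2 :=
    Continuous.finCons (by fun_prop) (by fun_prop)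
  obtain ⟨N, hN, hpN, vf, c1, c2, h3⟩ := toep (isCompact_Icc.prod (isCompact_sphere _ _)) (Φ := Φ)
    (hΦ ▸ hU.comp (ContinuousOn.smul ((Complex.continuous_ofReal.comp hg.norm).continuousOn.inv₀
      fun z hz => Complex.ofReal_ne_zero.2 (gam_ne (by simpa using hz.1.2) (by simpa using hz.2)))
      hg.continuousOn) fun z hz => h1 hz.1.2 (by simpa using hz.2)) h0 (fun y hy z hz => (h2 y hy z hz).1)
    (Nat.pos_of_ne_zero hp0)
  have hN1 : ζ ^ N = 1 := by obtain ⟨c, rfl⟩ := hpN; rw [pow_mul, hp, one_pow]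
  obtain ⟨σ, τ, hb⟩ : ∃ σ τ : Fin (2 * N + 1) → R, Bi σ τ := ⟨_, _, w.bi Fin.val_injective⟩
  have h4 : ∀ y ∈ Set.Icc (0 : ℝ) 1 ×ˢ sphere (0 : Fin (k + 1) → ℂ) 1,
      pf N (Φ y) * sg 0 δE = sg 0 δF * rho hζ (pf N (Φ (y.1, ζ • y.2))) := fun y hy =>
    pf_tw hN hζ hN1 fun z hz => (h2 y hy z hz).2
  have h5 : ∀ x x', Φ (1, x) = Φ (1, x') := fun x x' => by simp [hΦ, gam]
  have h6 : ∀ x, pf N (Φ (0, x)) = sg 0 (Φ (0, x) 0) := fun x => by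
    rw [← pf_const hN]; simp [hΦ, gam]
  have i0 : Inv N F F (sg 0 F) (sg 0 F) := ⟨fun c hc => by
    rw [co_sg, if_neg (by rw [mem_Icc] at hc; omega)], by rw [sg_mul, add_zero, hF.idem],
    by rw [sg_mul, add_zero, hF.idem], by rw [sg_mul, add_zero, hF.idem], by rw [sg_mul, add_zero, hF.idem]⟩
  obtain ⟨s0, a0⟩ := idx hζ hκ hp0 hp hN1 hb i0 hF hF (by rw [rho_sg0, sg_mul, sg_mul, hF.comm])
  obtain ⟨s1, a1⟩ := idx hζ hκ hp0 hp hN1 hb (h3 (1, fun _ => 1) ⟨by simp, hx⟩) hE hF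
    (by simpa only [h5 (ζ • fun _ => 1) fun _ => 1] using h4 (1, fun _ => 1) ⟨by simp, hx⟩)
  have h7 : ∀ x ∈ sphere (0 : Fin (k + 1) → ℂ) 1, ζ • x ∈ sphere (0 : Fin (k + 1) → ℂ) 1 :=
    fun x hx => by rwa [mem_sphere_zero_iff_norm, norm_smul, hζ, one_mul, ← mem_sphere_zero_iff_norm]
  obtain ⟨U', u1, u2⟩ := van_htp (isCompact_sphere (0 : Fin (k + 1) → ℂ) 1) (g := (ζ • ·))
    (δ := mt σ τ (dl N ζ δF)) (mt_cont σ τ (A := fun y => qm N (· < N) (pf N (Φ y)) (vf (pf N (Φ y)))) fun i j =>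
      (co_cont _).comp_continuousOn (c1.mul ((fl_cont _).comp_continuousOn (c2.mul continuousOn_const))))
    fun t ht x hx => ⟨(mt_mul hb _ _).trans (congrArg _ ((h3 _ ⟨ht, hx⟩).qm_mul (by simp) fun j hj =>
        (h3 _ ⟨ht, hx⟩).win (by omega) hj (by omega) le_rfl)), by
      rw [mt_mul hb, mt_mul hb]
      exact congrArg _ (qm_tw hζ (h3 _ ⟨ht, hx⟩) (h3 (t, ζ • x) ⟨ht, h7 x hx⟩) hE hF (h4 _ ⟨ht, hx⟩))⟩
  refine ⟨_, _, _, s0.mt hb, s1.mt hb, ⟨U', u1, fun x hx => ?_⟩, by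
    rw [map_sub, cl_mt hb, cl_mt hb, a0, a1, sub_self, sub_zero]⟩
  have a2 := (h3 (0, x) ⟨by simp, hx⟩).pv
  have a3 := u2 x hx
  rw [h6] at a2
  simp only [h5 x fun _ => 1, h6, qm, ent_const a2] at a3
  simpa only [qm, ent_const i0.pv] using a3

theorem van_ind (w : Two R) (hκ : IsCl κ) (hp0 : p ≠ 0) (hp : ζ ^ p = 1) {n : ℕ}
    (hn : ∀ e, e * e = e → n • κ e = 0) (k : ℕ) {δE E δF F : R} (hE : Sub p δE E) (hF : Sub p δF F)
    (h : Van (sphere (0 : Fin (k + 1) → ℂ) 1) (ζ • ·) δE δF (fun _ => E) fun _ => F) :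
    ∃ f : ℕ → K, (∀ c, f (c + p) = f c) ∧ n • f = 0 ∧
      cl κ p ζ δF F - cl κ p ζ δE E = ((1 - sh K) ^ k) f := by
  induction k generalizing δE E δF F with
  | zero =>
    refine ⟨cl κ p ζ δF F - cl κ p ζ δE E, fun c => ?_, funext fun c => ?_, rfl⟩
    · simp only [Pi.sub_apply, cl_per hp]
    · rw [Pi.smul_apply, Pi.sub_apply, smul_sub, cl, cl, hn _ ((hE.smul (pow_pow_one hp c)).pr_idem hp0),
        hn _ ((hF.smul (pow_pow_one hp c)).pr_idem hp0), sub_zero, Pi.zero_apply]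
  | succ k ih =>
    obtain ⟨δ, E', F', h1, h2, h3, h4⟩ := step w hκ hp0 hp hE hF h
    obtain ⟨f, h5, h6, h7⟩ := ih h1 h2 h3
    exact ⟨f, h5, h6, by rw [← h4, h7, pow_succ', Module.End.mul_apply]⟩

theorem van_nil (w : Two R) (hκ : IsCl κ) (hp0 : p.Prime) (hp : ζ ^ p = 1) {n a : ℕ}
    (hn : ∀ e, e * e = e → (n * p ^ a) • κ e = 0) {δE E δF F : R} (hE : Sub p δE E) (hF : Sub p δF F)
    (h : Van (sphere (0 : Fin (p * a + 1) → ℂ) 1) (ζ • ·) δE δF (fun _ => E) fun _ => F) :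
    n • (cl κ p ζ δF F - cl κ p ζ δE E) = 0 := by
  obtain ⟨f, h1, h2, h3⟩ := van_ind w hκ hp0.ne_zero hp hn _ hE hF h
  rw [h3, nil hp0 a n f h1 h2]

end Pool.Agent.Lib.MP_4aeabb_an
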