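import Pool.Agent.Lib.MP_4aeabb_an.H8Leg
import Pool.Agent.Lib.MP_4aeabb_an.H8Step

/-!
The power operation and the final count.
-/

namespace Pool.Agent.Lib.MP_4aeabb_an

open Finset Filter Topology Metric

variable {D : Type*} [CStarAlgebra D]

lemma norm_one_le' : ‖(1 : D)‖ ≤ 1 := IsStarProjection.norm_le 1 (.one D)

lemma Cu.norm_le {ι : Type*} [Fintype ι] [DecidableEq ι] {s : ι → D} (h : Cu s) (i : ι) : ‖s i‖ ≤ 1 := by
  have := CStarRing.norm_star_mul_self (x := s i)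
  rw [h.1, if_pos rfl] at this
  nlinarith [norm_one_le' (D := D), norm_nonneg (s i)]

lemma cu_prod {m p : ℕ} {A : Fin p → Fin m → D} (h : ∀ j, Cu (A j)) :
    Cu fun I : Fin p → Fin m => (List.ofFn fun j => A j (I j)).prod := by
  induction p with
  | zero => exact ⟨fun I J => by simp [Subsingleton.elim I J], by simp⟩
  | succ p ih =>
    obtain ⟨h1, h2⟩ := ih fun j => h j.succ
    refine ⟨fun I J => ?_, ?_⟩
    · simp only [List.ofFn_succ, List.prod_cons, star_mul, mul_assoc]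
      rw [← mul_assoc (star (A 0 _)), (h 0).1, ite_mul, one_mul, zero_mul, mul_ite, mul_zero,
        h1 (fun j => I j.succ) fun j => J j.succ, ← ite_and]
      simp only [funext_iff, Fin.forall_fin_succ]
    · rw [← (Fin.consEquiv fun _ => Fin m).sum_comp, Fintype.sum_prod_type, ← (h 0).2]
      refine sum_congr rfl fun i _ => ?_
      simp only [List.ofFn_succ, List.prod_cons, star_mul, mul_assoc, Fin.consEquiv_apply, Fin.cons_zero,
        Fin.cons_succ, ← mul_sum]
      simp only [← mul_assoc, ← sum_mul, h2, one_mul]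

lemma comm_prod {a : D} {ε : ℝ} {l : List D} (h : ∀ x ∈ l, ‖x‖ ≤ 1 ∧ ‖a * x - x * a‖ ≤ ε) :
    ‖l.prod‖ ≤ 1 ∧ ‖a * l.prod - l.prod * a‖ ≤ l.length * ε := by
  induction l with
  | nil => simpa using norm_one_le'
  | cons x l ih =>
    obtain ⟨h1, h2⟩ := ih fun y hy => h y (List.mem_cons_of_mem _ hy)
    obtain ⟨h3, h4⟩ := h x List.mem_cons_self
    rw [List.prod_cons, List.length_cons, show a * (x * l.prod) - x * l.prod * a = (a * x - x * a) * l.prod
      + x * (a * l.prod - l.prod * a) by simp only [mul_sub, sub_mul, mul_assoc]; abel]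
    push_cast
    constructor
    · nlinarith [norm_mul_le x l.prod, norm_nonneg x, norm_nonneg l.prod]
    · nlinarith [norm_add_le ((a * x - x * a) * l.prod) (x * (a * l.prod - l.prod * a)),
        norm_mul_le (a * x - x * a) l.prod, norm_mul_le x (a * l.prod - l.prod * a),
        norm_nonneg (a * x - x * a), norm_nonneg (a * l.prod - l.prod * a)]

lemma polar {m : ℕ} (h : Cz D m) : ∃ s : Fin m → D, Cu s := by
  obtain ⟨a, b, h1, h2⟩ := h
  let _ := CStarAlgebra.spectralOrder D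
  have := CStarAlgebra.spectralOrderedRing D
  have h3 : ∀ i j, star (a i) * star (b j) = if j = i then 1 else 0 := fun i j => by
    rw [← star_mul, h1]; split_ifs <;> simp
  have h4 : 0 ≤ ∑ l, star (b l) * b l := sum_nonneg fun l _ => star_mul_self_nonneg _
  have h5 := CFC.sqrt_mul_sqrt_self _ h4
  have h6 := (IsSelfAdjoint.of_nonneg (CFC.sqrt_nonneg (∑ l, star (b l) * b l))).star_eq
  generalize CFC.sqrt (∑ l, star (b l) * b l) = r at h5 h6
  have h7 : (∑ i, a i * star (a i)) * r * r = 1 := by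
    rw [mul_assoc, h5, sum_mul_sum, ← h2]
    refine sum_congr rfl fun i _ => ?_
    simp only [mul_assoc, ← mul_assoc (star (a i)), h3]
    simp
  have h8 : r * (r * ∑ i, a i * star (a i)) = 1 := by
    simpa [star_mul, h6] using congrArg star h7
  refine ⟨fun i => r * a i, fun i j => ?_, ?_⟩
  · rw [star_mul, h6, mul_assoc, ← mul_assoc r, h5, sum_mul, mul_sum]
    simp only [mul_assoc, ← mul_assoc (star (a i)), h3, h1]
    simp [eq_comm]
  · simp only [star_mul, h6, mul_assoc, ← mul_sum]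
    simp only [← mul_assoc, ← sum_mul]
    rw [mul_assoc, left_inv_eq_right_inv h7 h8, h8]

/-- the cyclic shift of multi-indices -/
def sf {q m : ℕ} (J : Fin (q + 1) → Fin m) : Fin (q + 1) → Fin m := fun i => J (i + 1)

lemma sf_iter {q m : ℕ} (k : ℕ) (J : Fin (q + 1) → Fin m) (i : Fin (q + 1)) :
    sf^[k] J i = J (i + k • 1) := by
  induction k generalizing i with
  | zero => simp
  | succ k ih => rw [Function.iterate_succ_apply', sf, ih, succ_nsmul', add_assoc]

lemma sf_per {q m : ℕ} (J : Fin (q + 1) → Fin m) : sf^[q + 1] J = J := funext fun i => by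
  have := card_nsmul_eq_zero (G := Fin (q + 1)) (x := 1)
  rw [Fintype.card_fin] at this
  rw [sf_iter, this, add_zero]

/-- the permutation matrix of the shift -/
def pm (q m : ℕ) : Matrix (Fin (q + 1) → Fin m) (Fin (q + 1) → Fin m) ℂ :=
  .of fun I J => if I = sf J then 1 else 0

lemma pm_pow (q m k : ℕ) : pm q m ^ k = .of fun I J => if I = sf^[k] J then 1 else 0 := by
  induction k with
  | zero => ext I J; rfl
  | succ k ih => rw [pow_succ, ih]; ext I J; simp [pm, Matrix.mul_apply]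

lemma pm_sub (q m : ℕ) : Sub (q + 1) (pm q m) 1 :=
  ⟨mul_one 1, by simp, by rw [pm_pow, mul_one]; ext I J; simp only [sf_per]; rfl⟩

lemma pm_trace {q : ℕ} (hp : (q + 1).Prime) (m : ℕ) {ζ : ℂ} (hζ : IsPrimitiveRoot ζ (q + 1)) :
    (q + 1 : ℕ) * (pr (q + 1) (ζ • pm q m)).trace + m = (m : ℂ) ^ (q + 1) := by
  have h1 : ∀ k ∈ range q, (pm q m ^ (k + 1)).trace = m := fun k hk => by
    rw [pm_pow, Matrix.trace]
    simp only [Matrix.diag, Matrix.of_apply, sum_boole]
    rw [show filter (fun J : Fin (q + 1) → Fin m => J = sf^[k + 1] J) univ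
      = univ.image (Function.const _) from ?_, card_image_of_injective _ Function.const_injective]
    · simp
    ext J
    simp only [mem_filter, mem_univ, true_and, mem_image]
    refine ⟨fun h => ⟨J 0, funext fun i => ?_⟩, ?_⟩
    · have a1 := Function.IsPeriodicPt.gcd (f := sf) h.symm (sf_per J)
      rw [(Nat.coprime_of_lt_prime k.succ_ne_zero (Nat.succ_lt_succ (mem_range.1 hk)) hp).symm.gcd_eq_one] at a1
      induction i using Fin.induction with
      | zero => rfl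
      | succ i ih => rw [← Fin.coeSucc_eq_succ]; exact ih.trans (congrFun a1 _).symm
    · rintro ⟨c, rfl⟩
      exact funext fun i => by rw [sf_iter]; rfl
  have h2 := hζ.geom_sum_eq_zero hp.one_lt
  rw [pr, Matrix.trace_smul, smul_eq_mul, mul_inv_cancel_left₀ (by exact_mod_cast hp.ne_zero),
    Matrix.trace_sum, sum_range_succ', sum_congr rfl fun k hk => by
      rw [smul_pow, Matrix.trace_smul, h1 k hk, smul_eq_mul], ← sum_mul]
  rw [sum_range_succ'] at h2
  simp only [pow_zero, Matrix.trace_one, Fintype.card_pi, prod_const, Fintype.card_fin, card_univ] at h2 ⊢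
  push_cast
  linear_combination m * h2

theorem van_cu (S : SSA D) (hS : AU (N0 D) S.α S.β) {m q : ℕ} {s : Fin m → D} (hs : Cu s) {ζ : ℂ}
    (hζ : IsPrimitiveRoot ζ (q + 1)) (k : ℕ) {σ τ : (Fin (q + 1) → Fin m) → D} (hb : Bi σ τ) :
    Van (sphere (0 : Fin k → ℂ) 1) (ζ • ·) (mt σ τ ((pm q m).map (algebraMap ℂ D))) 1
      (fun _ => mt σ τ 1) fun _ => 1 := by
  obtain ⟨ξ, hξ, h0⟩ : ∃ ξ, IsPrimitiveRoot ξ (q + 1) ∧ ξ * ζ = 1 :=
    ⟨_, hζ.inv, inv_mul_cancel₀ (hζ.ne_zero q.succ_ne_zero)⟩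
  have hn : ∀ (j : ℕ) {x : Fin k → ℂ}, x ∈ sphere 0 1 → ξ ^ j • x ∈ sphere 0 1 := fun j x hx => by
    rwa [mem_sphere_zero_iff_norm, norm_smul, norm_pow, hξ.norm'_eq_one q.succ_ne_zero, one_pow, one_mul,
      ← mem_sphere_zero_iff_norm]
  obtain ⟨η, h1, h2⟩ := ((eventually_all.2 fun i : Fin q => (eventually_le_nhds (norm_pos_iff.2
    (sub_ne_zero.2 (hξ.pow_ne_one_of_pos_of_lt (Nat.succ_ne_zero i) (Nat.succ_lt_succ i.2)).symm))).filter_mono
    (nhdsWithin_le_nhds (s := Set.Ioi 0))).and self_mem_nhdsWithin).exists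
  obtain ⟨ε, e1, e2⟩ := exists_pos_mul_lt zero_lt_one ((Fintype.card (Fin (q + 1) → Fin m) : ℝ) * ((q + 1) * q))
  obtain ⟨W, hW, h3⟩ := SSA.legs hS (isCompact_sphere (0 : Fin k → ℂ) 1) hs.norm_le e1 h2
  obtain ⟨θ, hθ⟩ : ∃ θ : (Fin k → ℂ) → Fin m → D, θ = fun x i => cj (W x) (S.α (s i)) := ⟨_, rfl⟩
  have h4 : ∀ x, Cu (θ x) := fun x => hθ ▸ (hs.map S.α).map _
  obtain ⟨T, hT⟩ : ∃ T : (Fin k → ℂ) → (Fin (q + 1) → Fin m) → D,
    T = fun x I => (List.ofFn fun j : Fin (q + 1) => θ (ξ ^ (j : ℕ) • x) (I j)).prod := ⟨_, rfl⟩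
  have h5 : ∀ x, Cu (T x) := fun x => hT ▸ cu_prod fun j => h4 _
  have h6 : ∀ I, Continuous fun x => T x I := fun I => by
    simp only [hT, hθ, List.ofFn_eq_map]
    exact continuous_list_prod _ fun j _ => (SSA.cj_cont hW _).comp (by fun_prop)
  have h7 : ∀ x ∈ sphere 0 1, ∀ J, ‖T x J - T (ξ • x) (sf J)‖ ≤ q * ε := fun x hx J => by
    have a1 : ∀ i : Fin q, η ≤ dist x (ξ ^ (i + 1 : ℕ) • x) := fun i => by
      rw [dist_eq_norm, ← one_smul ℂ x, smul_smul, ← sub_smul, norm_smul, mul_one,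
        mem_sphere_zero_iff_norm.1 hx, mul_one]
      exact h1 i
    have := (comm_prod (a := θ x (J 0)) (ε := ε) (l := List.ofFn fun i : Fin q => θ (ξ ^ (i + 1 : ℕ) • x)
      (J i.succ)) (List.forall_mem_ofFn_iff.2 fun i => ⟨(h4 _).norm_le _, by
        rw [hθ]; exact h3 x hx _ (hn _ hx) (a1 i) _ _⟩)).2
    rw [List.length_ofFn] at this
    simp only [hT]
    rw [List.ofFn_succ, List.ofFn_succ', List.prod_cons, List.prod_concat]
    simpa only [sf, smul_smul, ← pow_succ, Fin.val_last, hξ.pow_eq_one, Fin.coeSucc_eq_succ, Fin.last_add_one,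
      Fin.val_zero, pow_zero, one_smul, Fin.val_succ, Fin.val_castSucc] using this
  have h8 : ∀ x ∈ sphere 0 1, ∀ J (j : ℕ), ‖T x J - T (ξ ^ j • x) (sf^[j] J)‖ ≤ j * (q * ε) :=
    fun x hx J j => by
      induction j with
      | zero => simp
      | succ j ih =>
        rw [Function.iterate_succ_apply', pow_succ', mul_smul]
        push_cast
        linarith [norm_sub_le_norm_sub_add_norm_sub (T x J) (T (ξ ^ j • x) (sf^[j] J))
          (T (ξ • ξ ^ j • x) (sf (sf^[j] J))), h7 _ (hn j hx) (sf^[j] J)]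
  obtain ⟨T', hT'⟩ : ∃ T' : (Fin k → ℂ) → (Fin (q + 1) → Fin m) → D, T' = fun x J =>
    ((q + 1 : ℕ) : ℂ)⁻¹ • ∑ j ∈ range (q + 1), T (ξ ^ j • x) (sf^[j] J) := ⟨_, rfl⟩
  have h9 : ∀ x ∈ sphere 0 1, ∀ J, ‖T x J - T' x J‖ ≤ (q + 1) * (q * ε) := fun x hx J => by
    rw [show T x J - T' x J = ((q + 1 : ℕ) : ℂ)⁻¹ • ∑ j ∈ range (q + 1), (T x J - T (ξ ^ j • x) (sf^[j] J)) by
      rw [sum_sub_distrib, smul_sub, sum_const, card_range, ← Nat.cast_smul_eq_nsmul ℂ,
        inv_smul_smul₀ (by exact_mod_cast q.succ_ne_zero), hT'], norm_smul, norm_inv, Complex.norm_natCast,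
      inv_mul_le_iff₀ (by positivity)]
    refine (norm_sum_le_of_le _ (n := fun _ => (q + 1) * (q * ε)) fun j hj => (h8 x hx J j).trans
      (mul_le_mul_of_nonneg_right (by exact_mod_cast (mem_range.1 hj).le) (by positivity))).trans ?_
    simp
  refine ⟨fun x => mt (fun _ : Unit => 1) τ (.of fun _ J => T' x J), ?_, fun x hx => ⟨?_, ?_⟩⟩
  · simp only [mt_apply, hT', Matrix.of_apply]
    exact (continuous_finsetSum _ fun _ _ => continuous_finsetSum _ fun J _ => (continuous_const.mul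
      ((continuous_finsetSum _ fun j _ => (h6 _).comp (by fun_prop)).const_smul _)).mul
        continuous_const).continuousOn
  · have a1 : ∀ f : (Fin (q + 1) → Fin m) → D, mt (fun _ : Unit => 1) τ (.of fun _ J => f J) *
        mt σ (fun _ : Unit => 1) (.of fun I _ => star (T x I)) = ∑ J, f J * star (T x J) := fun f => by
      rw [mt_mul hb]; simp [mt_apply, Matrix.mul_apply]
    refine ⟨_, (Pr.of ((a1 (T x)).trans (h5 x).2) ?_ (by rw [mt_mul hb, Matrix.mul_one])).inv
      (by rw [mt_mul hb, Matrix.mul_one]) (one_mul _) ?_⟩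
    · rw [mt_mul bi_unit]
      exact congrArg _ (Matrix.ext fun I J => by simp [Matrix.mul_apply, (h5 x).1, Matrix.one_apply])
    · rw [add_sub_cancel_right, ← mul_assoc, mt_mul hb, Matrix.mul_one, a1,
        show ∑ J, T' x J * star (T x J) = 1 - ∑ J, (T x J - T' x J) * star (T x J) by
          simp only [sub_mul, sum_sub_distrib, (h5 x).2, sub_sub_cancel]]
      refine isUnit_one_sub_of_norm_lt_one ((norm_sum_le_of_le _ (n := fun _ => (q + 1) * (q * ε))
        fun J _ => ?_).trans_lt (by simpa [mul_assoc] using e2))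
      nlinarith [norm_mul_le (T x J - T' x J) (star (T x J)), norm_star (T x J), (h5 x).norm_le J,
        h9 x hx J, norm_nonneg (T x J - T' x J)]
  · rw [mt_mul hb, one_mul]
    refine congrArg _ (Matrix.ext fun _ J => ?_)
    have a1 := sum_range_succ (fun j => T (ξ ^ j • ζ • x) (sf^[j] J)) (q + 1)
    rw [sum_range_succ', sf_per, hξ.pow_eq_one, pow_zero, Function.iterate_zero, id, add_left_inj] at a1
    simp only [smul_smul, pow_succ, mul_assoc, h0, mul_one, Function.iterate_succ_apply] at a1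
    simp only [Matrix.mul_apply, pm, Matrix.map_apply, Matrix.of_apply, apply_ite, map_one, map_zero, mul_one,
      mul_zero, sum_ite_eq', mem_univ, if_true, hT', a1, smul_smul]

theorem cu_two (S : SSA D) {m : ℕ} {s : Fin (m + 2) → D} (hs : Cu s) : ∃ t : Fin 2 → D, Cu t := by
  let w : Two D := ⟨s 0, s 1, star (s 0), star (s 1), by simp [hs.1], by simp [hs.1], by simp [hs.1],
    by simp [hs.1]⟩
  have h1 : 0 < addOrderOf (w.kl 1) := (isOfFinAddOrder_iff_nsmul_eq_zero.2 ⟨m + 1, m.succ_pos,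
    w.kl_cl.tors hs.1 hs.2 (mul_one 1) fun _ => by simp⟩).addOrderOf_pos
  obtain ⟨n, hn⟩ : ∃ n, n = addOrderOf (w.kl 1) := ⟨_, rfl⟩
  obtain ⟨t, ht⟩ := polar (w.extract (n := n) (hn ▸ addOrderOf_nsmul_eq_zero _))
  rcases eq_or_ne n 1 with rfl | h2
  · exact ⟨t, ht⟩
  exfalso
  obtain ⟨p, hp, h3⟩ := Nat.exists_prime_and_dvd h2
  obtain ⟨q, rfl⟩ := Nat.exists_eq_succ_of_ne_zero hp.ne_zero
  obtain ⟨a, n', h4, h5⟩ := Nat.exists_eq_pow_mul_and_not_dvd (hn ▸ h1.ne') _ hp.ne_one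
  have hζ := Complex.isPrimitiveRoot_exp _ hp.ne_zero
  generalize Complex.exp _ = ζ at hζ
  have hκ := w.kl_cl.comp S.α.toRingHom
  have hb := w.bi (Encodable.encode_injective (α := Fin (q + 1) → Fin (n + 1)))
  let φ := (Algebra.ofId ℂ D).mapMatrix (m := Fin (q + 1) → Fin (n + 1))
  have h6 : Sub (q + 1) (φ (pm q (n + 1))) 1 :=
    ⟨mul_one 1, by simp, by rw [← map_pow, ← map_one φ, ← map_mul, (pm_sub _ _).pow]⟩
  have h7 := congrFun (van_nil w hκ hp hζ.pow_eq_one (n := n') (a := a) (fun e he => by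
    rw [mul_comm, ← h5]
    exact w.kl_cl.tors (ht.map S.β).1 (ht.map S.β).2 (by rw [← map_mul, he]) fun i => S.comm _ _)
    (h6.mt hb) ⟨mul_one 1, rfl, by simp⟩ (van_cu S (S.au0 hs) ht hζ _ hb)) 1
  obtain ⟨r, h8, h9⟩ := kap_trace hb w hκ (((pm_sub q (n + 1)).smul hζ.pow_eq_one).pr_idem hp.ne_zero)
  have h10 := pm_trace hp (n + 1) hζ
  rw [mul_one] at h8 h9
  rw [Pi.smul_apply, Pi.sub_apply, cl_mt hb, cl, cl, pow_one, mul_one, mul_one,
    show pr (q + 1) (ζ • φ (pm q (n + 1))) = (pr (q + 1) (ζ • pm q (n + 1))).map (algebraMap ℂ D) from by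
      change _ = φ _
      simp only [pr, map_smul, map_sum, map_pow], h9,
    show pr (q + 1) (ζ • (1 : D)) = 0 by
      simp only [pr, smul_pow, one_pow, ← sum_smul, hζ.geom_sum_eq_zero hp.one_lt, zero_smul, smul_zero],
    hκ.zero, zero_sub, smul_neg, smul_smul, map_one, Pi.zero_apply, neg_eq_zero,
    ← addOrderOf_dvd_iff_nsmul_eq_zero, ← hn] at h7
  rw [h8] at h10
  have h11 : ((q + 1 : ℕ) : ℤ) * r + (n + 1) = (1 + n) ^ (q + 1) := by
    rw [add_comm 1]; exact_mod_cast h10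
  obtain ⟨c, hc⟩ := sq_dvd_add_pow_sub_sub (n : ℤ) 1 (q + 1)
  obtain ⟨d, rfl⟩ := h3
  obtain ⟨e, he⟩ := h7
  have hd : (d : ℤ) ≠ 0 := by
    rintro c
    simp only [Nat.cast_eq_zero.1 c, mul_zero] at hn
    omega
  refine h4 (Int.natCast_dvd_natCast.1 ⟨n' * (1 + d * c) - e, mul_left_cancel₀ hd
    (mul_left_cancel₀ (Nat.cast_ne_zero.2 hp.ne_zero) ?_)⟩)
  zify at he
  push_cast at *
  linear_combination n' * (hc + h11) - (q + 1) * he

end Pool.Agent.Lib.MP_4aeabb_an
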