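import Pool.Agent.Lib.MP_4aeabb_an.H8Cl

/-!
Matrices over a ring, encoded inside the ring by biorthogonal families.
-/

namespace Pool.Agent.Lib.MP_4aeabb_an

open Finset

variable {R : Type*} [Ring R] [Algebra ℂ R] {ι ι' : Type*} [Fintype ι] [Fintype ι']

/-- biorthogonal families -/
def Bi [DecidableEq ι] (σ τ : ι → R) : Prop := ∀ i j, τ i * σ j = if i = j then 1 else 0

/-- the element encoding a matrix -/
def mt (σ : ι → R) (τ : ι' → R) : Matrix ι ι' R →ₗ[ℂ] R where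
  toFun A := ∑ i, ∑ j, σ i * A i j * τ j
  map_add' A B := by simp only [Matrix.add_apply, mul_add, add_mul, sum_add_distrib]
  map_smul' c A := by simp only [Matrix.smul_apply, mul_smul_comm, smul_mul_assoc, smul_sum, RingHom.id_apply]

lemma mt_apply (σ : ι → R) (τ : ι' → R) (A : Matrix ι ι' R) :
    mt σ τ A = ∑ i, ∑ j, σ i * A i j * τ j := rfl

variable [DecidableEq ι] [DecidableEq ι']

omit [DecidableEq ι] in
lemma mt_mul {μ : Type*} [Fintype μ] {σ : ι → R} {σ' τ' : ι' → R} (h : Bi σ' τ') {τ : μ → R}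
    (A : Matrix ι ι' R) (B : Matrix ι' μ R) : mt σ τ' A * mt σ' τ B = mt σ τ (A * B) := by
  have h1 : ∀ j (x : R) l, τ' j * (σ' l * x) = if j = l then x else 0 := fun j x l => by
    rw [← mul_assoc, h]; simp
  rw [mt_apply, mt_apply, mt_apply, sum_mul]
  refine sum_congr rfl fun i _ => ?_
  simp only [Matrix.mul_apply, mul_sum, sum_mul, mul_assoc]
  simp only [h1, mul_ite, mul_zero, sum_ite_eq', mem_univ, if_true]
  exact sum_comm

omit [Fintype ι] [Algebra ℂ R] in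
lemma Two.bi (w : Two R) {e : ι → ℕ} (he : Function.Injective e) :
    Bi (fun i => w.s (e i)) fun i => w.t (e i) := fun i j => by simp only [w.ts, he.eq_iff]

omit [Algebra ℂ R] in
lemma bi_unit : Bi (fun _ : Unit => (1 : R)) fun _ => 1 := fun _ _ => by simp

lemma mt_unit (x : R) : mt (fun _ : Unit => (1 : R)) (fun _ : Unit => 1) (Matrix.of fun _ _ => x) = x := by
  simp [mt_apply]

variable {K : Type*} [AddCommGroup K] {κ : R → K} {p : ℕ} {σ τ : ι → R} (h : Bi σ τ)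
include h

lemma mt_pow (δ X : Matrix ι ι R) (k : ℕ) : mt σ τ δ ^ k * mt σ τ X = mt σ τ (δ ^ k * X) := by
  induction k with
  | zero => simp
  | succ k ih => rw [pow_succ', mul_assoc, ih, mt_mul h, pow_succ', mul_assoc]

lemma Sub.mt {δ X : Matrix ι ι R} (hs : Sub p δ X) : Sub p (mt σ τ δ) (mt σ τ X) :=
  ⟨by rw [mt_mul h, hs.idem], by rw [mt_mul h, mt_mul h, hs.comm], by rw [mt_pow h, hs.pow]⟩

omit [AddCommGroup K] in
lemma cl_mt (ζ : ℂ) (δ X : Matrix ι ι R) :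
    cl κ p ζ (mt σ τ δ) (mt σ τ X) = cl (fun A => κ (mt σ τ A)) p ζ δ X := by
  funext c
  rw [cl, cl, pr, pr, ← map_smul, smul_mul_assoc, smul_mul_assoc, sum_mul, sum_mul,
    map_smul (mt σ τ) (p : ℂ)⁻¹, map_sum]
  simp only [mt_pow h]

lemma IsCl.mt (hκ : IsCl κ) : IsCl fun A => κ (mt σ τ A) :=
  ⟨fun a b h1 h2 => hκ.eqv' (mt_mul h a b) (mt_mul h b a) (by rw [mt_mul h, h1])
    (by rw [mt_mul h, h2]), fun e g he hg h1 h2 => by
      rw [map_add]
      exact hκ.add _ _ (by rw [mt_mul h, he]) (by rw [mt_mul h, hg]) (by rw [mt_mul h, h1, map_zero])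
        (by rw [mt_mul h, h2, map_zero])⟩

lemma cl_rect (hκ : IsCl κ) (hp : p ≠ 0) {ζ : ℂ} (hζ : ζ ^ p = 1) {σ' τ' : ι' → R} (h' : Bi σ' τ')
    {δ X : Matrix ι ι R} {δ' X' : Matrix ι' ι' R} (hs : Sub p δ X) (hs' : Sub p δ' X')
    {a : Matrix ι ι' R} {b : Matrix ι' ι R} (h1 : a * b = X) (h2 : b * a = X') (h3 : δ * a = a * δ') :
    cl (fun A => κ (mt σ τ A)) p ζ δ X = cl (fun A => κ (mt σ' τ' A)) p ζ δ' X' := by
  rw [← cl_mt h, ← cl_mt h']
  exact cl_eqv hκ hp hζ (hs.mt h) (hs'.mt h') (a := mt σ τ' a) (b := mt σ' τ b)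
    (by rw [mt_mul h', h1]) (by rw [mt_mul h, h2]) (by rw [mt_mul h, mt_mul h', h3])

lemma cl_one (hκ : IsCl κ) (hp : p ≠ 0) {ζ : ℂ} (hζ : ζ ^ p = 1)
    {δ X : Matrix ι ι R} {δ' X' : R} (hs : Sub p δ X) (hs' : Sub p δ' X')
    {a b : ι → R} (h1 : ∀ i j, a i * b j = X i j) (h2 : ∑ i, b i * a i = X')
    (h3 : ∀ i, ∑ j, δ i j * a j = a i * δ') :
    cl (fun A => κ (mt σ τ A)) p ζ δ X = cl κ p ζ δ' X' := by
  rw [← cl_mt h]
  refine cl_eqv hκ hp hζ (hs.mt h) hs' (a := mt σ (fun _ : Unit => 1) (.of fun i _ => a i))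
    (b := mt (fun _ : Unit => 1) τ (.of fun _ j => b j)) ?_ ?_ ?_
  · rw [mt_mul bi_unit]
    exact congrArg _ (Matrix.ext fun i j => by simp [Matrix.mul_apply, h1])
  · rw [mt_mul h, ← mt_unit X']
    exact congrArg _ (Matrix.ext fun i j => by simp [Matrix.mul_apply, h2])
  · rw [mt_mul h, ← mt_unit δ', mt_mul bi_unit]
    exact congrArg _ (Matrix.ext fun i j => by simp [Matrix.mul_apply, h3])

lemma kap_trace (w : Two R) (hκ : IsCl κ) {M : Matrix ι ι ℂ} (hM : M * M = M) :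
    ∃ r : ℕ, M.trace = r ∧ κ (mt σ τ (M.map (algebraMap ℂ R))) = r • κ 1 := by
  obtain ⟨f, hf⟩ : ∃ f, f = Matrix.toLin' M := ⟨_, rfl⟩
  let b := Module.finBasis ℂ (LinearMap.range f)
  let A := LinearMap.toMatrix b (Pi.basisFun ℂ ι) (LinearMap.range f).subtype
  let B := LinearMap.toMatrix (Pi.basisFun ℂ ι) b f.rangeRestrict
  have h1 : A * B = M := by
    rw [← LinearMap.toMatrix_comp, show (LinearMap.range f).subtype ∘ₗ f.rangeRestrict = f from rfl, hf,
      LinearMap.toMatrix_eq_toMatrix', LinearMap.toMatrix'_toLin']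
  have h2 : B * A = 1 := by
    rw [← LinearMap.toMatrix_comp, ← LinearMap.toMatrix_id b]
    refine congrArg _ (LinearMap.ext fun ⟨_, x, rfl⟩ => Subtype.ext ?_)
    change f (f x) = f x
    rw [hf, ← Matrix.toLin'_mul_apply, hM]
  have h' := w.bi (Fin.val_injective (n := Module.finrank ℂ (LinearMap.range f)))
  refine ⟨_, by rw [← h1, Matrix.trace_mul_comm, h2, Matrix.trace_one, Fintype.card_fin], ?_⟩
  have h3 := hκ.eqv' (mt_mul h' (A.map (algebraMap ℂ R)) (B.map (algebraMap ℂ R))) (mt_mul h _ _)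
    (by rw [mt_mul h, ← Matrix.map_mul, ← Matrix.map_mul, h1, hM])
    (by rw [mt_mul h', ← Matrix.map_mul, ← Matrix.map_mul, h2, mul_one])
  rw [← Matrix.map_mul, ← Matrix.map_mul, h1, h2] at h3
  rw [h3, mt_apply, sum_congr rfl (g := fun i : Fin _ => w.s i * w.t i) fun i _ => by
    simp [Matrix.one_apply, apply_ite], hκ.sum _ _ (fun i => by simp [mul_assoc, w.ts_mul])
    fun i j hij => by simp [mul_assoc, w.ts_mul, Fin.val_inj, hij], sum_congr rfl fun (i : Fin _) _ =>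
      hκ.eqv' rfl (w.ts_self i) (by simp [mul_assoc, w.ts_mul]) (mul_one 1)]
  simp

end Pool.Agent.Lib.MP_4aeabb_an
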