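import Pool.Agent.Lib.MP_4aeabb_an.H8Fej
import Pool.Agent.Lib.MP_4aeabb_an.H8Mat

/-!
The index of an invertible Laurent polynomial.
-/

namespace Pool.Agent.Lib.MP_4aeabb_an

open Finset

variable {R : Type*} [NormedRing R] [CompleteSpace R] {q q' q'' : ℤ → Prop} [DecidablePred q]
  [DecidablePred q'] [DecidablePred q'']

lemma fl_sg_mul (a : R) (x : W R) : fl q (sg 0 a * x) = sg 0 a * fl q x := W_ext fun i => by
  rw [co_fl, co_sg_mul, co_sg_mul, co_fl, sub_zero]; split_ifs <;> simp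

lemma fl_mul_sg {c : ℤ} (hq : ∀ i, q' (i - c) ↔ q i) (a : R) (x : W R) :
    fl q (x * sg c a) = fl q' x * sg c a := W_ext fun i => by
  rw [co_fl, co_mul_sg, co_mul_sg, co_fl]; simp only [hq]; split_ifs <;> simp

lemma fl_fl (hq : ∀ c, q'' c ↔ q c ∧ q' c) (x : W R) : fl q (fl q' x) = fl q'' x := W_ext fun i => by
  simp only [co_fl, hq, ite_and]

lemma fl_or (hq : ∀ c, (q'' c ↔ q c ∨ q' c) ∧ ¬ (q c ∧ q' c)) (x : W R) :
    fl q'' x = fl q x + fl q' x := W_ext fun i => by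
  have := hq i
  simp only [map_add, co_fl]; split_ifs <;> simp_all

lemma eq_sum_fin {x : W R} (o : ℤ) (d : ℕ) (h : ∀ l, l < o ∨ o + d ≤ l → co l x = 0) :
    x = ∑ l : Fin d, sg (l + o) (co (l + o) x) := by
  rw [← sum_image (s := univ) (g := fun l : Fin d => (l : ℤ) + o) (f := fun c => sg c (co c x))
    fun a _ b _ c => Fin.ext (by simpa using c)]
  refine eq_sum _ fun c hc => h c ?_
  by_contra! h1
  exact hc (mem_image.2 ⟨⟨(c - o).toNat, by omega⟩, mem_univ _, by simp only; omega⟩)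

/-- an invertible Laurent polynomial -/
structure Inv (N : ℕ) (E F : R) (P V : W R) : Prop where
  supp : ∀ c, c ∉ Icc (-N : ℤ) N → co c P = 0
  pv : P * V = sg 0 F
  vp : V * P = sg 0 E
  pe : P * sg 0 E = P
  ev : sg 0 E * V = V

/-- matrix entries of the compressed idempotent -/
noncomputable def ent (q : ℤ → Prop) [DecidablePred q] (P V : W R) (i j : ℤ) : R :=
  co i (P * fl q (V * sg j 1))

variable {N : ℕ} {E F : R} {P V P' V' : W R}

lemma ent_shift {M M' : ℤ} (hM : M' = M + 1) (i j : ℤ) :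
    ent (· < M') P V (i + 1) (j + 1) = ent (· < M) P V i j := by
  rw [ent, ent, show sg (j + 1) (1 : R) = sg j 1 * sg 1 1 by rw [sg_mul, mul_one], ← mul_assoc,
    fl_mul_sg (q' := (· < M)) (fun i => by omega), ← mul_assoc, co_mul_sg, add_sub_cancel_right, mul_one]

lemma ent_const {a : R} (h : sg 0 a * V = sg 0 F) (i j : ℤ) :
    ent q (sg 0 a) V i j = co i (fl q (sg 0 F * sg j 1)) := by
  rw [ent, ← fl_sg_mul, ← mul_assoc, h]

namespace Inv

variable (h : Inv N E F P V)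
include h

lemma van {i : ℤ} (hq : ∀ c, q c → c + N < i ∨ i + N < c) (x : W R) : co i (P * fl q x) = 0 := by
  rw [co_mul _ h.supp]
  refine sum_eq_zero fun c hc => ?_
  rw [co_fl, if_neg fun a => by have := hq _ a; have := mem_Icc.1 hc; omega, mul_zero]

lemma ent_lt {M i : ℤ} (hi : i + N < M) (j : ℤ) :
    ent (· < M) P V i j = if j = i then F else 0 := by
  have h1 := congrArg (fun y => co i (P * y)) (fl_or (q := (· < M)) (q' := (M ≤ ·))
    (q'' := fun _ => True) (fun c => by grind) (V * sg j 1))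
  rw [show fl (fun _ => True) (V * sg j 1) = V * sg j 1 from W_ext fun c => by simp [co_fl]] at h1
  simp only [mul_add, map_add] at h1
  rw [h.van (q := (M ≤ ·)) fun c hc => by omega, add_zero, ← mul_assoc, h.pv, sg_mul, co_sg,
    zero_add, mul_one] at h1
  exact h1.symm

lemma ent_mul (hq : ∀ c, q'' c ↔ q c ∧ q' c) (o : ℤ) (d : ℕ) (i j : ℤ)
    (hw : ∀ l, l < o ∨ o + d ≤ l → ent q' P V l j = 0) :
    ∑ l : Fin d, ent q P V i (l + o) * ent q' P V (l + o) j = ent q'' P V i j := by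
  have h1 := congrArg (fun y => co i (P * fl q (V * y))) (eq_sum_fin o d hw)
  simp only [mul_sum, map_sum] at h1
  rw [← mul_assoc V, h.vp, fl_sg_mul, ← mul_assoc P, h.pe, fl_fl hq] at h1
  refine Eq.trans (sum_congr rfl fun l _ => ?_) h1.symm
  rw [ent, ← sub_zero i, ← co_mul_sg, mul_assoc, ← fl_mul_sg (q := q) (fun i => by rw [sub_zero]),
    mul_assoc, sg_mul, add_zero, one_mul, sub_zero, ent]

lemma f_ent (i j : ℤ) : F * ent q P V i j = ent q P V i j := by
  rw [ent, ← sub_zero i, ← co_sg_mul, ← mul_assoc, ← h.pv, mul_assoc P V, h.vp, h.pe, sub_zero]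

end Inv

variable [NormedAlgebra ℂ R] {ζ : ℂ} (hζ : ‖ζ‖ = 1) {p : ℕ} {δE δF : R}

lemma rho_sg (c : ℤ) (a : R) : rho hζ (sg c a) = sg c (ζ ^ c • a) := W_ext fun i => by
  rw [co_rho, co_sg, co_sg]; split_ifs with h <;> simp [h]

lemma rho_sg0 (a : R) : rho hζ (sg 0 a) = sg 0 a := by rw [rho_sg, zpow_zero, one_smul]

lemma fl_rho (x : W R) : fl q (rho hζ x) = rho hζ (fl q x) := W_ext fun i => by
  rw [co_fl, co_rho, co_rho, co_fl]; split_ifs <;> simp

lemma ent_tw (h : Inv N E F P V) (h' : Inv N E F P' V') (hE : Sub p δE E) (hF : Sub p δF F)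
    (ht : P * sg 0 δE = sg 0 δF * rho hζ P') (i j : ℤ) :
    ent q P V i j * ζ ^ j • δF = ζ ^ i • δF * ent q P' V' i j := by
  have h1 : V * sg 0 δF = sg 0 δE * rho hζ V' := by
    calc V * sg 0 δF = sg 0 E * V * sg 0 δF := by rw [h.ev]
      _ = V * (sg 0 δF * rho hζ (P' * V')) := by
        rw [h'.pv, rho_sg0, sg_mul, hF.comm, ← sg_mul, ← h.pv, ← h.vp]
        simp only [mul_assoc]
      _ = sg 0 δE * rho hζ (sg 0 E * V') := by
        rw [map_mul, ← mul_assoc _ (rho hζ P'), ← ht, ← mul_assoc, ← mul_assoc, h.vp, map_mul, rho_sg0,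
          ← mul_assoc, sg_mul, sg_mul, hE.comm]
      _ = _ := by rw [h'.ev]
  have h2 : sg j (1 : R) * sg 0 (ζ ^ j • δF) = sg 0 δF * rho hζ (sg j 1) := by
    rw [rho_sg, sg_mul, sg_mul, add_comm, one_mul, mul_smul_comm, mul_one]
  rw [ent, ← sub_zero i, ← co_mul_sg, mul_assoc, ← fl_mul_sg (q := q) (fun i => by rw [sub_zero]),
    mul_assoc, h2, ← mul_assoc V, h1, mul_assoc, ← map_mul, fl_sg_mul, ← mul_assoc, ht, fl_rho,
    mul_assoc, ← map_mul, co_sg_mul, co_rho, sub_zero, mul_smul_comm, smul_mul_assoc, ent]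

/-- the finite matrix -/
noncomputable def qm (N : ℕ) (q : ℤ → Prop) [DecidablePred q] (P V : W R) :
    Matrix (Fin (2 * N + 1)) (Fin (2 * N + 1)) R := .of fun i j => ent q P V i j

/-- the diagonal action -/
noncomputable def dl (N : ℕ) (ζ : ℂ) (δ : R) : Matrix (Fin (2 * N + 1)) (Fin (2 * N + 1)) R :=
  .diagonal fun i => ζ ^ (i : ℤ) • δ

lemma qm_tw (h : Inv N E F P V) (h' : Inv N E F P' V') (hE : Sub p δE E) (hF : Sub p δF F)
    (ht : P * sg 0 δE = sg 0 δF * rho hζ P') : qm N q P V * dl N ζ δF = dl N ζ δF * qm N q P' V' :=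
  Matrix.ext fun i j => by
    rw [dl, Matrix.mul_diagonal, Matrix.diagonal_mul]
    exact ent_tw hζ h h' hE hF ht i j

omit [NormedAlgebra ℂ R] in
lemma Inv.win (h : Inv N E F P V) {M j : ℤ} (h1 : M ≤ N + 1) {o : ℤ} (h2 : o ≤ j) (h3 : o + N ≤ M)
    (h4 : 0 ≤ o) (l : ℤ) (hl : l < o ∨ o + (2 * N + 1 : ℕ) ≤ l) : ent (· < M) P V l j = 0 := by
  rcases hl with c | c
  · rw [h.ent_lt (by omega), if_neg (by omega)]
  · exact h.van (fun c hc => by omega) _

omit [NormedAlgebra ℂ R] in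
lemma Inv.qm_mul (h : Inv N E F P V) (hq : ∀ c, q'' c ↔ q c ∧ q' c)
    (hw : ∀ j : ℤ, 0 ≤ j → ∀ l, l < 0 ∨ 0 + ((2 * N + 1 : ℕ) : ℤ) ≤ l → ent q' P V l j = 0) :
    qm N q P V * qm N q' P V = qm N q'' P V := Matrix.ext fun i j => by
  simpa [qm, Matrix.mul_apply] using h.ent_mul hq 0 _ i j (hw j (by positivity))

lemma Inv.qm_pow (h : Inv N E F P V) (hF : Sub p δF F) (hp : ζ ^ p = 1) :
    dl N ζ δF ^ p * qm N q P V = qm N q P V := Matrix.ext fun i j => by
  rw [dl, Matrix.diagonal_pow, Matrix.diagonal_mul, Pi.pow_apply, smul_pow, ← zpow_natCast, ← zpow_mul,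
    mul_comm, zpow_mul, zpow_natCast ζ p, hp, one_zpow, one_smul, qm, Matrix.of_apply, ← h.f_ent,
    ← mul_assoc, hF.pow]

theorem idx {K : Type*} [AddCommGroup K] {κ : R → K} (hκ : IsCl κ) (hp0 : p ≠ 0) (hp : ζ ^ p = 1)
    (hN : ζ ^ N = 1) {σ τ : Fin (2 * N + 1) → R} (hb : Bi σ τ) (h : Inv N E F P V)
    (hE : Sub p δE E) (hF : Sub p δF F) (ht : P * sg 0 δE = sg 0 δF * rho hζ P) :
    Sub p (dl N ζ δF) (qm N (· < N) P V) ∧ (1 - sh K) (cl (fun A => κ (mt σ τ A)) p ζ (dl N ζ δF)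
      (qm N (· < N) P V)) = cl κ p ζ δF F - cl κ p ζ δE E := by
  obtain ⟨M, hM⟩ : ∃ M : ℤ, N + 1 = M := ⟨_, rfl⟩
  have w0 := fun j hj => h.win (M := N) (j := j) (by omega) hj (by omega) le_rfl
  have w1 := fun j hj => h.win (M := M) (j := j) hM.ge hj (by omega) le_rfl
  have w2 : ∀ j : ℤ, 0 ≤ j → ∀ l, l < 0 ∨ 0 + ((2 * N + 1 : ℕ) : ℤ) ≤ l →
      ent (· = N) P V l j = 0 := fun j _ l hl => h.van (fun c hc => by omega) _
  have s0 : Sub p (dl N ζ δF) (qm N (· < N) P V) :=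
    ⟨h.qm_mul (by simp) w0, (qm_tw hζ h h hE hF ht).symm, h.qm_pow hF hp⟩
  have s1 : Sub p (dl N ζ δF) (qm N (· < M) P V) :=
    ⟨h.qm_mul (by simp) w1, (qm_tw hζ h h hE hF ht).symm, h.qm_pow hF hp⟩
  have s2 : Sub p (dl N ζ δF) (qm N (· = N) P V) :=
    ⟨h.qm_mul (by simp) w2, (qm_tw hζ h h hE hF ht).symm, h.qm_pow hF hp⟩
  have z0 : qm N (fun _ => False) P V = 0 := Matrix.ext fun i j => h.van (by simp) _
  have hκ' := hκ.mt hb
  have a1 := cl_add hκ' hp0 hp s0 s2 (z0 ▸ h.qm_mul (fun c => by grind) w2)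
    (z0 ▸ h.qm_mul (fun c => by grind) w0)
  rw [show qm N (· < N) P V + qm N (· = N) P V = qm N (· < M) P V from Matrix.ext fun i j => by
    simp only [qm, ent, Matrix.add_apply, Matrix.of_apply]
    rw [← map_add, ← mul_add, ← fl_or (q'' := (· < M)) fun c => by grind],
    cl_one hb hκ hp0 hp s2 hE (a := fun i => co (i - N) P) (b := fun j => co (N - j) V)
      (fun i j => by
        rw [qm, Matrix.of_apply, ent, show fl (· = (N : ℤ)) (V * sg j 1) = sg N (co N (V * sg j 1))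
          from W_ext fun c => by rw [co_fl, co_sg]; split_ifs <;> grind, co_mul_sg, co_mul_sg,
          mul_one]) ?_ fun i => ?_] at a1
  rotate_left
  · have := congrArg (fun y => co N (V * y)) (eq_sum_fin (x := P * sg N 1) 0 (2 * N + 1) fun l hl => by
      rw [co_mul_sg, h.supp _ (by rw [mem_Icc]; omega), zero_mul])
    simp only [mul_sum, map_sum, co_mul_sg, add_zero, mul_one] at this
    rw [← this, ← mul_assoc, h.vp, sg_mul, co_sg, if_pos (zero_add _), mul_one]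
  · have := congrArg (co (i - N)) ht
    rw [co_mul_sg, co_sg_mul, co_rho, sub_zero, zpow_sub₀ (ne0 hζ), zpow_natCast ζ N, hN, div_one] at this
    simp [dl, Matrix.diagonal_apply, this]
  obtain ⟨ι, hι⟩ : ∃ ι : Matrix (Fin (2 * N + 1)) (Fin (2 * N + 1)) R,
    ι = .diagonal fun i => if i = 0 then 0 else 1 := ⟨_, rfl⟩
  have e0 : ∀ j : ℤ, ent (· < M) P V 0 j = if j = 0 then F else 0 := h.ent_lt (by omega)
  obtain ⟨t1, t2, a2⟩ := cl_tri hκ' hp0 hp s1 (ι := ι) (by
    rw [hι, Matrix.diagonal_mul_diagonal]; congr 1; funext i; split_ifs <;> simp) (by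
    rw [hι, dl, Matrix.diagonal_mul_diagonal, Matrix.diagonal_mul_diagonal]
    congr 1; funext i; split_ifs <;> simp) (Matrix.ext fun i j => by
    rw [hι, Matrix.mul_diagonal, Matrix.mul_diagonal, Matrix.diagonal_mul]
    split_ifs with c1 c2 <;> simp [*, qm])
  rw [cl_one hb hκ hp0 hp t2 hF (a := fun i => if i = 0 then F else 0)
    (b := fun i => if i = 0 then F else 0) (fun i j => by
      rw [hι, Matrix.sub_apply, Matrix.diagonal_mul]
      split_ifs with c1 c2 <;> simp [*, qm, hF.idem]) (by simp [hF.idem]) (fun i => by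
      simp only [dl, Matrix.diagonal_apply]
      split_ifs with c1 <;> simp [*, hF.comm]),
    cl_eqv hκ' hp0 hp t1 (s0.smul hp) (a := .of fun i j => ent (· < M) P V i (j + 1))
      (b := .of (fun i j => ent (· < M) P V (i + 1) j) * ι) ?_ ?_ ?_] at a2
  · refine ⟨s0, funext fun c => ?_⟩
    have := congrFun (a1.symm.trans a2) c
    rw [Pi.add_apply, Pi.add_apply, cl_smul] at this
    rw [Pi.sub_apply, LinearMap.sub_apply, Pi.sub_apply, sub_eq_sub_iff_add_eq_add, add_comm (cl κ p ζ δF F c)]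
    exact this
  · ext i j
    rw [← mul_assoc, hι, Matrix.mul_diagonal, Matrix.mul_diagonal]
    split_ifs with c
    · simp
    · exact congrArg (· * 1) (h.ent_mul (by simp) 1 _ i j (h.win hM.ge
        (by have : (j : ℕ) ≠ 0 := fun a => c (Fin.ext a); omega) (by omega) (by omega)))
  · ext i j
    rw [mul_assoc, qm, Matrix.of_apply, ← ent_shift hM.symm, ← h.ent_mul (q := (· < M))
      (q' := (· < M)) (by simp) 0 _ _ _ (w1 _ (by positivity)), Matrix.mul_apply]
    refine sum_congr rfl fun l _ => ?_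
    rw [hι, Matrix.diagonal_mul]
    split_ifs with c
    · simp [c, e0, show (j : ℤ) + 1 ≠ 0 by omega]
    · simp
  · ext i j
    rw [mul_smul_comm, Matrix.smul_apply, dl, Matrix.mul_diagonal, Matrix.diagonal_mul, Matrix.of_apply,
      ← ent_tw hζ h h hE hF ht, zpow_add_one₀ (ne0 hζ), mul_comm _ ζ, mul_smul, mul_smul_comm]

end Pool.Agent.Lib.MP_4aeabb_an
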