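import Pool.Agent.Lib.MP_4aeabb_an.H8Simp

/-!
A torsion unit is properly infinite.
-/

namespace Pool.Agent.Lib.MP_4aeabb_an

open Finset Filter Topology
open scoped CStarAlgebra

universe u

section
variable {R : Type*} [Ring R]

/-- comparison of free modules -/
def Le (R : Type*) [Ring R] (ι μ : Type) [Fintype μ] [DecidableEq ι] : Prop :=
  ∃ (A : Matrix μ ι R) (B : Matrix ι μ R), B * A = 1

variable {ι μ ν : Type} [Fintype ι] [Fintype μ] [Fintype ν] [DecidableEq ι] [DecidableEq μ] [DecidableEq ν]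

omit [Fintype ι] [DecidableEq ν] in
lemma Le.trans (h1 : Le R ι μ) (h2 : Le R μ ν) : Le R ι ν := by
  obtain ⟨A, B, h1⟩ := h1
  obtain ⟨C, E, h2⟩ := h2
  exact ⟨C * A, B * E, by rw [Matrix.mul_assoc, ← Matrix.mul_assoc E, h2, Matrix.one_mul, h1]⟩

lemma Le.card (h : Fintype.card ι ≤ Fintype.card μ) : Le R ι μ := by
  obtain ⟨f⟩ := Function.Embedding.nonempty_of_card_le h
  exact ⟨.of fun i j => if i = f j then 1 else 0, .of fun j i => if i = f j then 1 else 0,
    Matrix.ext fun i j => by simp [Matrix.mul_apply, Matrix.one_apply, eq_comm]⟩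

omit [Fintype ι] [DecidableEq μ] in
lemma Le.sum (h : Le R ι μ) : Le R (ι ⊕ ν) (μ ⊕ ν) := by
  obtain ⟨A, B, h⟩ := h
  exact ⟨.fromBlocks A 0 0 1, .fromBlocks B 0 0 1, by simp [Matrix.fromBlocks_multiply, h]⟩

lemma Le.all {k n : ℕ} (hn : 0 < n) (h : Le R (Fin (k + n)) (Fin k)) (j : ℕ) :
    Le R (Fin (k + j)) (Fin k) := by
  induction j with
  | zero => exact .card le_rfl
  | succ j ih => exact ((Le.card (by simp; omega)).trans ((h.sum (ν := Fin j)).trans
      (.card (by simp)))).trans ih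

lemma two_of {s0 s1 t0 t1 : R} (h1 : IsUnit (t0 * s0))
    (h2 : IsUnit (t1 * s1 - t1 * s0 * Ring.inverse (t0 * s0) * (t0 * s1))) : Nonempty (Two R) := by
  have a1 := Ring.mul_inverse_cancel _ h1
  have a2 := Ring.inverse_mul_cancel _ h1
  have a3 := Ring.mul_inverse_cancel _ h2
  generalize Ring.inverse (t0 * s0) = g at *
  generalize Ring.inverse (t1 * s1 - t1 * s0 * g * (t0 * s1)) = h at a3
  have a4 : ∀ y, t0 * (s0 * (g * y)) = y := fun y => by rw [← mul_assoc, ← mul_assoc, a1, one_mul]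
  have a5 : ∀ y, g * (t0 * (s0 * y)) = y := fun y => by rw [← mul_assoc t0, ← mul_assoc, a2, one_mul]
  refine ⟨⟨s0 * g, (s1 - s0 * g * (t0 * s1)) * h, t0, t1 - t1 * s0 * g * t0, by rw [← mul_assoc, a1], ?_,
    by simp only [mul_sub, sub_mul, mul_assoc, a4, sub_self],
    by simp only [sub_mul, mul_assoc, a5, sub_self]⟩⟩
  rw [← a3]
  simp only [mul_sub, sub_mul, mul_assoc, a4, sub_self, sub_zero]

end

variable {D : Type u} [CStarAlgebra D] (S : SSA D)
include S

lemma SSA.au_end (γ : D →⋆ₐ[ℂ] D) : AU Set.univ id γ := by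
  obtain ⟨ρ, r1, r2⟩ := S.ext (β' := S.β.comp γ) (fun a b => S.comm _ _) (S.func γ)
  have h1 := S.au_ab.post ρ
  simp only [r1, r2] at h1
  obtain ⟨F, a1, a2, a3⟩ := (S.au.trans S.au_ab).symm
  exact (S.au.trans h1).trans ⟨F, a1, a2, fun d => a3 _⟩

variable (hs : ∀ a : D, a ≠ 0 → ∃ (n : ℕ) (x y : Fin n → D), ∑ i, x i * a * y i = 1)
include hs

lemma SSA.ne {a b : D} (ha : a ≠ 0) (hb : b ≠ 0) : S.α a * S.β b ≠ 0 := fun h => by
  obtain ⟨n, x, y, h1⟩ := hs a ha
  refine hb ((S.au.trans S.au_ab).symm.zero ?_)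
  rw [← one_mul (S.β b), ← map_one S.α, ← h1, map_sum, sum_mul]
  exact sum_eq_zero fun i _ => by
    rw [map_mul, map_mul, mul_assoc, S.comm, mul_assoc, ← mul_assoc (S.α a), h, zero_mul, mul_zero]

lemma SSA.fam {a b : D} (ha : a * a ≠ 0) (hb : b * b ≠ 0) (h : a * b = 0) (k : ℕ) :
    ∃ (x : Fin k → D) (e : D), (∀ i j, i ≠ j → x i * x j = 0) ∧ e * e ≠ 0 ∧
      ∀ i, e ∈ closure (Set.range fun v => cj v (x i)) := by
  have h0 : ∀ a b c d, S.α a * S.β b * (S.α c * S.β d) = S.α (a * c) * S.β (b * d) := fun a b c d => by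
    rw [mul_assoc, ← mul_assoc (S.β b), ← S.comm, map_mul, map_mul, mul_assoc, mul_assoc]
  obtain ⟨σ, s1, s2⟩ := S.ext (fun a b => (S.comm b a).symm) S.flip
  have h1 := (S.au_end σ).mem (S.α b * S.β a)
  rw [map_mul, s1, s2, ← S.comm] at h1
  have h2 : ∀ {e x f y}, e ∈ closure (Set.range fun v => cj v x) → f ∈ closure (Set.range fun v => cj v y) →
      S.α e * S.β f ∈ closure (Set.range fun v => cj v (S.α x * S.β y)) := fun c d =>
    map_mem_closure₂ (f := fun p q => S.α p * S.β q) (by fun_prop) c d (by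
      rintro _ ⟨u, rfl⟩ _ ⟨v, rfl⟩
      refine ⟨um S.α u * um S.β v, ?_⟩
      simp only [cj_mul, map_mul]
      rw [cj_comm (v := um S.β v) (S.comm _ _).symm, cj_um, cj_um, cj_comm (v := um S.α u) (S.comm _ _)])
  have h3 : ∀ e : D, e ∈ closure (Set.range fun v => cj v e) := fun e => subset_closure ⟨1, cj_one e⟩
  induction k with
  | zero => exact ⟨Fin.elim0, a, fun i => i.elim0, ha, fun i => i.elim0⟩
  | succ k ih =>
    obtain ⟨x, e, a1, a2, a3⟩ := ih
    refine ⟨Fin.cons (S.α e * S.β (S.α b * S.β a)) fun i => S.α (x i) * S.β (S.α a * S.β b),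
      S.α e * S.β (S.α a * S.β b), fun i j => ?_, ?_, fun i => ?_⟩
    · induction i using Fin.cases <;> induction j using Fin.cases <;> intro c
      · exact absurd rfl c
      · simp only [Fin.cons_zero, Fin.cons_succ, h0, h, map_zero, mul_zero]
      · simp only [Fin.cons_zero, Fin.cons_succ, h0, h, map_zero, mul_zero, zero_mul]
      · simp only [Fin.cons_succ, h0, a1 _ _ fun d => c (congrArg _ d), map_zero, zero_mul]
    · rw [h0, h0]
      exact S.ne hs a2 (S.ne hs ha hb)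
    · induction i using Fin.cases
      exacts [h2 (h3 e) h1, h2 (a3 _) (h3 _)]

theorem SSA.two {a b : D} (ha : a * a ≠ 0) (hb : b * b ≠ 0) (h : a * b = 0) {k n : ℕ} (hn : 0 < n)
    (hk : Le D (Fin (k + n)) (Fin k)) : Nonempty (Two D) := by
  obtain ⟨x, e, h1, h2, h3⟩ := S.fam hs ha hb h k
  obtain ⟨N, y, z, h4⟩ := hs _ h2
  obtain ⟨A, B, h5⟩ := (Le.card (ι := Fin 2 × Fin N) (by simp)).trans (hk.all hn (2 * N))
  obtain ⟨G, hG⟩ : ∃ G : Fin 2 → Fin 2 → (Fin k → D) → D, G = fun t t' f => ∑ i, ∑ l, ∑ l',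
    S.α (y l * (f i * f i) * z l') * S.β (B (t, l) i * A i (t', l')) := ⟨_, rfl⟩
  have c1 : ∀ t t', Continuous (G t t') := fun t t' => by rw [hG]; fun_prop
  have c2 : ∀ t t', G t t' (fun _ => e) = if t = t' then 1 else 0 := fun t t' => by
    simp only [hG]
    rw [sum_comm, sum_congr rfl fun l _ => sum_comm]
    simp only [← mul_sum, ← map_sum, ← Matrix.mul_apply, h5, Matrix.one_apply, Prod.ext_iff]
    split_ifs with c
    · simp only [c, true_and, apply_ite, map_one, map_zero, mul_one, mul_zero, sum_ite_eq, mem_univ, if_true,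
        ← map_sum, h4]
    · simp [c]
  have c3 : ContinuousAt (fun f => G 1 1 f - G 1 0 f * Ring.inverse (G 0 0 f) * G 0 1 f) fun _ => e :=
    (c1 1 1).continuousAt.sub (((c1 1 0).continuousAt.mul (ContinuousAt.comp (g := Ring.inverse) (by
      rw [c2, if_pos rfl]; exact NormedRing.inverse_continuousAt 1) (c1 0 0).continuousAt)).mul
      (c1 0 1).continuousAt)
  obtain ⟨f, ⟨b1, b2⟩, b3⟩ := mem_closure_iff_nhds.1 (mem_closure_pi.2 fun i (_ : i ∈ Set.univ) => h3 i) _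
    (inter_mem ((c1 0 0).continuousAt.preimage_mem_nhds (Units.isOpen.mem_nhds (by simp [c2])))
      (c3.preimage_mem_nhds (Units.isOpen.mem_nhds (by simp [c2]))))
  choose v hv using fun i => b3 i (Set.mem_univ i)
  obtain ⟨T, hT⟩ : ∃ T : Fin 2 → D, T = fun t => ∑ i, ∑ l, S.α (y l * (v i * x i)) * S.β (B (t, l) i) :=
    ⟨_, rfl⟩
  obtain ⟨U, hU⟩ : ∃ U : Fin 2 → D, U = fun t => ∑ i, ∑ l, S.α (x i * star (v i : D) * z l) * S.β (A i (t, l)) :=
    ⟨_, rfl⟩
  have c4 : ∀ t t', T t * U t' = G t t' f := fun t t' => by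
    simp only [hG, hT, hU]
    rw [sum_mul_sum]
    refine sum_congr rfl fun i _ => ?_
    have d1 : ∀ j l l', S.α (y l * (v i * x i)) * S.β (B (t, l) i) * (S.α (x j * star (v j : D) * z l')
        * S.β (A j (t', l'))) = S.α (y l * (v i * (x i * x j) * star (v j : D)) * z l')
          * S.β (B (t, l) i * A j (t', l')) := fun j l l' => by
      rw [mul_assoc, ← mul_assoc (S.β _), ← S.comm]
      simp only [map_mul, mul_assoc]
    rw [sum_eq_single_of_mem i (mem_univ _) fun j _ hj => by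
      simp only [sum_mul_sum, d1, h1 i j hj.symm, mul_zero, zero_mul, map_zero, sum_const_zero], sum_mul_sum]
    simp only [d1, ← hv, ← map_mul (cj (v i))]
    rfl
  exact two_of (s0 := U 0) (s1 := U 1) (t0 := T 0) (t1 := T 1) (by rw [c4]; exact b1)
    (by rw [c4, c4, c4, c4]; exact b2)

omit hs in
theorem SSA.final (w : Two D) (h : UnitTorsion D) : HasO2 D := by
  obtain ⟨k, n, v, hn, h1, h2⟩ := h
  have b1 := w.bi (Fin.val_injective (n := k))
  have b2 := w.bi (Fin.val_injective (n := k + n))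
  obtain ⟨r, a1, a2⟩ := kap_trace b1 w w.kl_cl (mul_one 1)
  obtain ⟨r', a3, a4⟩ := kap_trace b2 w w.kl_cl (mul_one 1)
  rw [Matrix.trace_one, Fintype.card_fin, Nat.cast_inj] at a1 a3
  rw [Matrix.map_one _ (map_zero _) (map_one _)] at a2 a4
  have a5 := w.kl_cl.eqv' (mt_mul b2 v v.conjTranspose) (mt_mul b1 _ _) (by rw [mt_mul b1, h1, mul_one])
    (by rw [mt_mul b2, h2, mul_one])
  rw [h1, h2, a2, a4, ← a1, ← a3, add_nsmul, left_eq_add] at a5
  obtain ⟨n, rfl⟩ := Nat.exists_eq_succ_of_ne_zero hn.ne'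
  obtain ⟨s, hs⟩ := polar (w.extract a5)
  obtain ⟨t, ht⟩ := cu_two S hs
  exact ⟨t 0, t 1, by simp [ht.1], by simp [ht.1], by simpa using ht.2⟩

end Pool.Agent.Lib.MP_4aeabb_an
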