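import Mathlib

/-!
Classes of idempotents in a properly infinite ring.
-/

namespace Pool.Agent.Lib.MP_4aeabb_an

open Finset

/-- two algebraic isometries with independent ranges -/
structure Two (R : Type*) [Ring R] where
  s0 : R
  s1 : R
  t0 : R
  t1 : R
  h00 : t0 * s0 = 1
  h11 : t1 * s1 = 1
  h01 : t0 * s1 = 0
  h10 : t1 * s0 = 0

/-- a class function on idempotents -/
structure IsCl {R K : Type*} [Ring R] [AddCommGroup K] (κ : R → K) : Prop where
  eqv : ∀ a b : R, a * b * (a * b) = a * b → b * a * (b * a) = b * a → κ (a * b) = κ (b * a)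
  add : ∀ e f : R, e * e = e → f * f = f → e * f = 0 → f * e = 0 → κ (e + f) = κ e + κ f

variable {R : Type*} [Ring R] (w : Two R)

namespace Two

def s (i : ℕ) : R := w.s1 ^ i * w.s0
def t (i : ℕ) : R := w.t0 * w.t1 ^ i

lemma s_succ (i : ℕ) : w.s (i + 1) = w.s1 * w.s i := by rw [s, s, pow_succ', mul_assoc]
lemma t_succ (i : ℕ) : w.t (i + 1) = w.t i * w.t1 := by rw [t, t, pow_succ, mul_assoc]

lemma ts (i j : ℕ) : w.t i * w.s j = if i = j then 1 else 0 := by
  induction i generalizing j with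
  | zero =>
    rcases j with _ | j
    · simp [s, t, w.h00]
    · rw [s_succ, t, pow_zero, mul_one, ← mul_assoc, w.h01, zero_mul, if_neg (by omega)]
  | succ i ih =>
    rcases j with _ | j
    · rw [t_succ, s, pow_zero, one_mul, mul_assoc, w.h10, mul_zero, if_neg (by omega)]
    · rw [t_succ, s_succ, mul_assoc, ← mul_assoc w.t1, w.h11, one_mul, ih]
      simp

lemma ts_self (i : ℕ) : w.t i * w.s i = 1 := by rw [ts, if_pos rfl]

lemma ts_mul (i j : ℕ) (x : R) : w.t i * (w.s j * x) = if i = j then x else 0 := by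
  rw [← mul_assoc, ts]; simp

def rel (_ : Two R) : Setoid {e : R // e * e = e} where
  r e f := ∃ a b, a * b = e.1 ∧ b * a = f.1
  iseqv := ⟨fun e => ⟨e.1, e.1, e.2, e.2⟩, fun ⟨a, b, h1, h2⟩ => ⟨b, a, h2, h1⟩,
    fun {e f g} ⟨a, b, h1, h2⟩ ⟨c, d, h3, h4⟩ => ⟨a * c, d * b, by
      rw [mul_assoc, ← mul_assoc c, h3, ← h2, ← mul_assoc, ← mul_assoc, h1, mul_assoc, h1, e.2], by
      rw [mul_assoc, ← mul_assoc b, h2, ← h3, ← mul_assoc, ← mul_assoc, h4, mul_assoc, h4, g.2]⟩⟩

def V := Quotient w.rel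

def cs (e : R) (h : e * e = e) : w.V := Quotient.mk _ ⟨e, h⟩

lemma blk (a b c d : R) : (w.s 0 * a * w.t 0 + w.s 1 * c * w.t 1) * (w.s 0 * b * w.t 0
    + w.s 1 * d * w.t 1) = w.s 0 * (a * b) * w.t 0 + w.s 1 * (c * d) * w.t 1 := by
  simp [mul_add, add_mul, mul_assoc, ts_mul]

instance : Add w.V := ⟨Quotient.map₂ (fun e f => ⟨w.s 0 * e.1 * w.t 0 + w.s 1 * f.1 * w.t 1, by
  rw [blk, e.2, f.2]⟩) fun _ _ ⟨a, b, h1, h2⟩ _ _ ⟨c, d, h3, h4⟩ =>
    ⟨w.s 0 * a * w.t 0 + w.s 1 * c * w.t 1, w.s 0 * b * w.t 0 + w.s 1 * d * w.t 1,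
      by rw [blk, h1, h3], by rw [blk, h2, h4]⟩⟩

instance : Zero w.V := ⟨w.cs 0 (mul_zero 0)⟩

lemma mk_add {e f : R} (he : e * e = e) (hf : f * f = f) (h1 : e * f = 0) (h2 : f * e = 0) :
    w.cs e he + w.cs f hf = w.cs (e + f) (by simp [mul_add, add_mul, *]) :=
  Quotient.sound ⟨w.s 0 * e + w.s 1 * f, e * w.t 0 + f * w.t 1, by
    simp only [mul_add, add_mul, mul_assoc, ← mul_assoc e, ← mul_assoc f, *, zero_mul, mul_zero,
      add_zero, zero_add], by simp [mul_add, add_mul, mul_assoc, ts_mul, *]⟩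

lemma rep (i : ℕ) (x : w.V) : ∃ e : R, ∃ h : w.s i * e * w.t i * (w.s i * e * w.t i) = w.s i * e * w.t i,
    x = w.cs (w.s i * e * w.t i) h := by
  obtain ⟨⟨e, he⟩, rfl⟩ := Quotient.exists_rep x
  exact ⟨e, by simp [mul_assoc, ts_mul, ← mul_assoc e, he], Quotient.sound ⟨e * w.t i, w.s i * e,
    by simp [mul_assoc, ts_mul, he], by simp [mul_assoc, ← mul_assoc e, he]⟩⟩

instance : AddCommMonoid w.V where
  add_assoc x y z := by
    obtain ⟨e, he, rfl⟩ := w.rep 0 x
    obtain ⟨f, hf, rfl⟩ := w.rep 1 y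
    obtain ⟨g, hg, rfl⟩ := w.rep 2 z
    rw [mk_add, mk_add, mk_add, mk_add]
    · simp only [add_assoc]
    all_goals simp [mul_add, add_mul, mul_assoc, ts_mul]
  zero_add x := by
    obtain ⟨e, he, rfl⟩ := w.rep 0 x
    exact (w.mk_add _ he (zero_mul _) (mul_zero _)).trans (by simp only [zero_add])
  add_zero x := by
    obtain ⟨e, he, rfl⟩ := w.rep 0 x
    exact (w.mk_add he _ (mul_zero _) (zero_mul _)).trans (by simp only [add_zero])
  add_comm x y := by
    obtain ⟨e, he, rfl⟩ := w.rep 0 x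
    obtain ⟨f, hf, rfl⟩ := w.rep 1 y
    rw [mk_add, mk_add]
    · simp only [add_comm]
    all_goals simp [mul_assoc, ts_mul]
  nsmul := nsmulRec

open Classical in
noncomputable def kl (e : R) : Algebra.GrothendieckAddGroup w.V :=
  if h : e * e = e then Algebra.GrothendieckAddGroup.of (w.cs e h) else 0

lemma kl_eq {e : R} (h : e * e = e) : w.kl e = Algebra.GrothendieckAddGroup.of (w.cs e h) := dif_pos h

lemma kl_cl : IsCl w.kl := ⟨fun a b h1 h2 => by
    rw [w.kl_eq h1, w.kl_eq h2]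
    exact congrArg _ (Quotient.sound ⟨a, b, rfl, rfl⟩),
  fun e f he hf h1 h2 => by rw [w.kl_eq he, w.kl_eq hf, ← map_add, w.mk_add he hf h1 h2, kl_eq]⟩

lemma mk_sum (n : ℕ) : ∃ h, n • w.cs 1 (mul_one 1) = w.cs (∑ i ∈ range n, w.s i * w.t i) h := by
  induction n with
  | zero => exact ⟨by simp, by simp only [range_zero, sum_empty, zero_nsmul]; rfl⟩
  | succ n ih =>
    obtain ⟨h, ih⟩ := ih
    have h1 : w.s n * w.t n * (w.s n * w.t n) = w.s n * w.t n := by simp [mul_assoc, ts_mul]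
    have h2 : w.cs 1 (mul_one 1) = w.cs _ h1 := Quotient.sound ⟨w.t n, w.s n, w.ts_self n, rfl⟩
    rw [succ_nsmul, ih, h2, sum_range_succ, w.mk_add h h1 (by
      rw [sum_mul]
      exact sum_eq_zero fun i hi => by simp [mul_assoc, ts_mul, (mem_range.1 hi).ne]) (by
      rw [mul_sum]
      exact sum_eq_zero fun i hi => by simp [mul_assoc, ts_mul, (mem_range.1 hi).ne'])]
    exact ⟨_, rfl⟩

end Two

/-- an algebraic Cuntz family of size `m` -/
def Cz (R : Type*) [Ring R] (m : ℕ) : Prop := ∃ a b : Fin m → R,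
  (∀ i j, b i * a j = if i = j then 1 else 0) ∧ ∑ i, a i * b i = 1

lemma Two.extract {n : ℕ} (h : n • w.kl 1 = 0) : Cz R (n + 1) := by
  have h1 : Algebra.GrothendieckAddGroup.of ((n + 1) • w.cs 1 (mul_one 1))
      = Algebra.GrothendieckAddGroup.of (w.cs 1 (mul_one 1)) := by
    rw [map_nsmul, ← w.kl_eq, succ_nsmul, h, zero_add]
  obtain ⟨⟨z, hz0⟩, hz⟩ := ((AddLocalization.addMonoidOf ⊤).eq_iff_exists).1 h1
  obtain ⟨e, he, rfl⟩ := w.rep 1 z
  have h2 : w.s 0 * w.t 0 * (w.s 0 * w.t 0) = w.s 0 * w.t 0 := by simp [mul_assoc, ts_mul]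
  have h3 : w.cs 1 (mul_one 1) = w.cs _ h2 := Quotient.sound ⟨w.t 0, w.s 0, w.ts_self 0, rfl⟩
  obtain ⟨g, hg⟩ : ∃ g, g = w.s 1 * e * w.t 1 + w.s 0 * w.t 0 := ⟨_, rfl⟩
  have h4 := w.mk_add he h2 (by simp [mul_assoc, ts_mul]) (by simp [mul_assoc, ts_mul])
  simp only [← hg] at h4
  generalize_proofs hgg at h4
  have h5 := w.mk_add (f := 1 - g) hgg (by simp [mul_sub, sub_mul, hgg]) (by simp [mul_sub, hgg])
    (by simp [sub_mul, hgg])
  simp only [add_sub_cancel] at h5
  generalize_proofs hy at h5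
  rw [← h4, ← h3] at h5
  have h6 : (n + 1) • w.cs 1 (mul_one 1) = w.cs 1 (mul_one 1) := by
    have := congrArg (· + w.cs _ hy) hz
    simp only at this
    rw [h5, succ_nsmul', ← add_assoc, add_right_comm, h5] at this
    rw [succ_nsmul', this]
  obtain ⟨h7, h8⟩ := w.mk_sum (n + 1)
  obtain ⟨b, a, h9, h10⟩ := Quotient.exact (h8.symm.trans h6)
  simp only at h9 h10
  refine ⟨fun i => a * w.s i, fun i => w.t i * b, fun i j => ?_, ?_⟩
  · rw [mul_assoc, ← mul_assoc b, h9, sum_mul, mul_sum, sum_eq_single i.1]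
    · simp [mul_assoc, ts, Fin.ext_iff]
    · intro l _ hl
      simp [mul_assoc, ts_mul, hl.symm]
    · exact fun c => absurd (mem_range.2 i.2) c
  · simp only [mul_assoc]
    rw [← mul_sum]
    simp only [← mul_assoc]
    rw [← sum_mul, Fin.sum_univ_eq_sum_range (fun i => w.s i * w.t i), ← h9, ← mul_assoc,
      ← mul_assoc, h10, one_mul, h10]

namespace IsCl

variable {K : Type*} [AddCommGroup K] {κ : R → K} (h : IsCl κ)
include h

lemma zero : κ 0 = 0 := by simpa using h.add 0 0 (by simp) (by simp) (by simp) (by simp)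

lemma eqv' {a b e f : R} (h1 : a * b = e) (h2 : b * a = f) (he : e * e = e) (hf : f * f = f) :
    κ e = κ f := by
  subst h1 h2
  exact h.eqv a b he hf

lemma sum {ι : Type*} (S : Finset ι) (e : ι → R) (he : ∀ i, e i * e i = e i)
    (ho : ∀ i j, i ≠ j → e i * e j = 0) : κ (∑ i ∈ S, e i) = ∑ i ∈ S, κ (e i) := by
  classical
  induction S using Finset.induction_on with
  | empty => simpa using h.zero
  | insert i S hi ih =>
    rw [sum_insert hi, sum_insert hi, ← ih]
    refine h.add _ _ (he i) ?_ ?_ ?_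
    · rw [sum_mul_sum]
      exact sum_congr rfl fun j hj => by
        rw [sum_eq_single_of_mem j hj fun l _ hl => ho _ _ hl.symm, he]
    · rw [mul_sum]
      exact sum_eq_zero fun j hj => ho _ _ fun c => hi (c ▸ hj)
    · rw [sum_mul]
      exact sum_eq_zero fun j hj => ho _ _ fun c => hi (c ▸ hj)

lemma comp {S : Type*} [Ring S] (f : S →+* R) : IsCl (fun x => κ (f x)) :=
  ⟨fun a b h1 h2 => h.eqv' (map_mul f a b).symm (map_mul f b a).symm (by rw [← map_mul, h1])
    (by rw [← map_mul, h2]), fun e g he hg h1 h2 => by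
      rw [map_add]
      exact h.add _ _ (by rw [← map_mul, he]) (by rw [← map_mul, hg]) (by rw [← map_mul, h1, map_zero])
        (by rw [← map_mul, h2, map_zero])⟩

lemma tors {n : ℕ} {a b : Fin (n + 1) → R} (h1 : ∀ i j, b i * a j = if i = j then 1 else 0)
    (h2 : ∑ i, a i * b i = 1) {e : R} (he : e * e = e) (hc : ∀ i, e * a i = a i * e) :
    n • κ e = 0 := by
  have h3 : ∀ i j, a i * e * b i * (a j * e * b j) = if i = j then a i * e * b j else 0 :=
    fun i j => by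
      rw [mul_assoc, ← mul_assoc (b i), ← mul_assoc (b i), h1]
      split_ifs
      · rw [one_mul, ← mul_assoc, mul_assoc (a i) e, he]
      · simp
  have h4 := h.sum univ (fun i => a i * e * b i) (fun i => by rw [h3, if_pos rfl])
    fun i j c => by rw [h3, if_neg c]
  rw [sum_congr rfl (g := fun _ => κ e) fun i _ => h.eqv' (a := a i * e) (b := b i) rfl
    (by rw [← mul_assoc, h1, if_pos rfl, one_mul]) (by rw [h3, if_pos rfl]) he] at h4
  simp only [← hc, mul_assoc] at h4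
  rw [← mul_sum, h2, mul_one, sum_const, card_univ, Fintype.card_fin, succ_nsmul] at h4
  simpa using h4

end IsCl

end Pool.Agent.Lib.MP_4aeabb_an
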