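import Pool.Agent.Lib.MP_4aeabb_an.H8Cst

/-!
Almost commuting fields of inner endomorphisms.
-/

namespace Pool.Agent.Lib.MP_4aeabb_an

open Filter Topology Metric
open scoped CStarAlgebra

variable {D : Type*} [CStarAlgebra D]

namespace SSA

variable (S : SSA D)

/-- the tensor legs -/
def g : ℕ → D →⋆ₐ[ℂ] D
  | 0 => S.α
  | i + 1 => S.β.comp (g i)

lemma g_comm {i j : ℕ} (h : i ≠ j) (a b : D) : Commute (S.g i a) (S.g j b) := by
  induction i generalizing j with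
  | zero =>
    obtain ⟨j, rfl⟩ := Nat.exists_eq_succ_of_ne_zero h.symm
    exact S.comm _ _
  | succ i ih =>
    rcases j with _ | j
    · exact (S.comm _ _).symm
    · exact (ih (j := j) (by omega)).map S.β

/-- the bicommutant of a set of legs -/
def In (A : Set ℕ) : Subring D := .centralizer {y | ∀ i ∈ A, ∀ d, Commute (S.g (i + 1) d) y}

variable {S} {A B : Set ℕ} {x y : D}

lemma in_leg {i : ℕ} (h : i ∈ A) (d : D) : S.g (i + 1) d ∈ S.In A := fun _ hy => (hy i h d).symm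

lemma in_mono (h : A ⊆ B) (hx : x ∈ S.In A) : x ∈ S.In B := fun y hy => hx y fun i hi => hy i (h hi)

lemma in_comm_leg (hx : x ∈ S.In A) {j : ℕ} (h : ∀ i ∈ A, i + 1 ≠ j) (d : D) : Commute (S.g j d) x :=
  hx _ fun i hi _ => S.g_comm (h i hi) _ _

lemma in_comm (hx : x ∈ S.In A) (hy : y ∈ S.In B) (h : ∀ i ∈ A, i ∉ B) : Commute y x :=
  hx _ fun i hi d => in_comm_leg hy (fun j hj c => h i hi ((Nat.add_right_cancel c : j = i) ▸ hj)) d

/-- elementary tensors -/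
def Gs (S : SSA D) (A : Set ℕ) : Submonoid D where
  carrier := {x | ∃ a, ∃ b ∈ S.In A, x = S.α a * b}
  one_mem' := ⟨1, 1, one_mem _, by simp⟩
  mul_mem' := by
    rintro _ _ ⟨a, b, hb, rfl⟩ ⟨c, d, hd, rfl⟩
    refine ⟨a * c, b * d, mul_mem hb hd, ?_⟩
    have : Commute (S.α c) b := in_comm_leg hb (j := 0) (by simp) c
    rw [map_mul, mul_assoc, ← mul_assoc b, ← this, mul_assoc, mul_assoc]

/-- the closed span of elementary tensors -/
def Cl (S : SSA D) (A : Set ℕ) : Subsemiring D := (Subsemiring.closure (S.Gs A : Set D)).topologicalClosure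

lemma mem_cl (hx : x ∈ S.Gs A) : x ∈ S.Cl A := subset_closure (Subsemiring.subset_closure hx)

lemma cl_mono (h : A ⊆ B) (hx : x ∈ S.Cl A) : x ∈ S.Cl B :=
  closure_mono (Subsemiring.closure_mono (by
    rintro _ ⟨a, b, hb, c⟩
    exact ⟨a, b, in_mono h hb, c⟩)) hx

section
variable {n : ℕ} {μ : D →⋆ₐ[ℂ] D} (h1 : ∀ a, μ (S.α a) = S.α a) (h2 : ∀ b, μ (S.β b) = S.g (n + 1) b)
include h1 h2

lemma mu_comm (hx : x ∈ S.In A) (hn : n ∉ A) (y : D) : Commute (μ y) x :=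
  S.ind ⟨⟨{y | μ y * x = x * μ y}, fun a b => by simp_all [add_mul, mul_add]⟩, by simp⟩
    (isClosed_eq (by fun_prop) (by fun_prop)) (fun a b => by
      change Commute _ _
      rw [map_mul, h1, h2]
      exact (in_comm_leg hx (j := 0) (by simp) a).mul_left
        (in_comm_leg hx (fun i hi c => hn ((Nat.add_right_cancel c : i = n) ▸ hi)) b)) y

lemma mu_mem (hn : n ∈ A) (y : D) : μ y ∈ S.Cl A :=
  S.ind ((S.Cl A).toAddSubmonoid.comap μ) (isClosed_closure.preimage (map_continuous μ))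
    (fun a b => mem_cl ⟨a, _, in_leg hn b, by rw [map_mul, h1, h2]⟩) y

lemma swap {F : Filter (unitary D)} (hF : ∀ d, Tendsto (fun v => dist (cj v (S.α d)) (S.β d)) F (𝓝 0))
    (hn : n ∉ A) (hx : x ∈ S.Cl A) {ε : ℝ} (hε : 0 < ε) :
    ∀ᶠ v in F, ∃ Z ∈ S.In (insert n A), dist (cj (um μ v) x) Z < ε := by
  obtain ⟨c, hc, h3⟩ := Metric.mem_closure_iff.1 hx _ (half_pos hε)
  have h4 : ∃ Z ∈ S.In (insert n A), Tendsto (fun v => cj (um μ v) c) F (𝓝 Z) := by
    rw [SetLike.mem_coe, Subsemiring.mem_closure_iff, Submonoid.closure_eq] at hc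
    clear h3
    induction hc using AddSubmonoid.closure_induction with
    | mem _ h =>
      obtain ⟨a, b, hb, rfl⟩ := h
      refine ⟨_, mul_mem (in_leg (Set.mem_insert _ _) a) (in_mono (Set.subset_insert _ _) hb), ?_⟩
      have := (((map_continuous μ).tendsto _).comp (tendsto_iff_dist_tendsto_zero.2 (hF a))).mul_const b
      rw [h2] at this
      exact this.congr fun v => by
        rw [map_mul, cj_comm (v := um μ v) (mu_comm h1 h2 hb hn _), ← h1 a, cj_um, Function.comp, h1]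
    | zero => exact ⟨0, zero_mem _, by simpa using tendsto_const_nhds⟩
    | add _ _ _ _ a b =>
      obtain ⟨Z, a1, a2⟩ := a
      obtain ⟨Z', b1, b2⟩ := b
      exact ⟨_, add_mem a1 b1, by simpa only [map_add] using a2.add b2⟩
  obtain ⟨Z, h5, h6⟩ := h4
  filter_upwards [Metric.tendsto_nhds.1 h6 _ (half_pos hε)] with v hv
  exact ⟨Z, h5, by linarith [dist_triangle (cj (um μ v) x) (cj (um μ v) c) Z, cj_dist (um μ v) x c]⟩

end

lemma cj_cont {Y : Type*} [TopologicalSpace Y] {W : Y → unitary D} (h : Continuous W) (d : D) :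
    Continuous fun x => cj (W x) d := by
  simp only [cj_apply]; fun_prop

theorem tower (hS : AU (N0 D) S.α S.β) {Y ι : Type*} [TopologicalSpace Y] [Finite ι] {X : Set Y}
    (hX : IsCompact X) {f : ℕ → Y → ℝ} (hf : ∀ i, Continuous (f i)) (d : ι → D) {ε : ℝ} (hε : 0 < ε)
    (n : ℕ) : ∃ W : Y → unitary D, Continuous W ∧ ∀ x ∈ X, ∀ j,
      cj (W x) (S.α (d j)) ∈ S.Cl {i | i < n ∧ 0 < f i x} ∧ ((∃ i < n, 1 ≤ f i x) →
        ∃ Z ∈ S.In {i | i < n ∧ 0 < f i x}, dist (cj (W x) (S.α (d j))) Z < ε) := by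
  induction n with
  | zero => exact ⟨fun _ => 1, continuous_const, fun x _ j =>
      ⟨mem_cl ⟨d j, 1, one_mem _, by rw [cj_one, mul_one]⟩, by simp⟩⟩
  | succ n ih =>
    obtain ⟨W, hW, ih⟩ := ih
    obtain ⟨F, _, a2, a3⟩ := hS
    obtain ⟨μ, h1, h2⟩ := S.ext (β' := S.g (n + 1)) (fun a b => S.comm _ _) (S.func (S.g n))
    have h3 := hX.mem_prod_nhdsSet_of_forall (l := F) (s := {z | ∀ j, ∃ Z ∈ S.In (insert n
        {i | i < n ∧ 0 < f i z.2}), dist (cj (um μ z.1) (cj (W z.2) (S.α (d j)))) Z < ε})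
      fun x hx => eventually_all.2 fun j => by
        have b1 : ∀ᶠ y in 𝓝 x, ∀ i ∈ {i | i < n}, 0 < f i x → 0 < f i y :=
          (eventually_all_finite (Set.finite_lt_nat n)).2 fun i _ => eventually_imp_distrib_left.2
            fun c => (hf i).continuousAt.eventually (lt_mem_nhds c)
        refine ((swap h1 h2 a3 (by simp) (ih x hx j).1 (half_pos hε)).prod_mk (b1.and
          (Metric.tendsto_nhds.1 (cj_cont hW (S.α (d j))).continuousAt _ (half_pos hε)))).mono ?_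
        rintro ⟨v, y⟩ ⟨⟨Z, b2, b3⟩, b4, b5⟩
        refine ⟨Z, in_mono (Set.insert_subset_insert fun i hi => ⟨hi.1, b4 i hi.1 hi.2⟩) b2, ?_⟩
        linarith [dist_triangle (cj (um μ v) (cj (W y) (S.α (d j)))) (cj (um μ v) (cj (W x) (S.α (d j)))) Z,
          cj_dist (um μ v) (cj (W y) (S.α (d j))) (cj (W x) (S.α (d j)))]
    obtain ⟨v, ⟨γ⟩, h4⟩ := (a2.and (Eventually.curry h3)).exists
    have h5 : ∀ x, {i | i < n ∧ 0 < f i x} ⊆ {i | i < n + 1 ∧ 0 < f i x} :=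
      fun x i hi => ⟨hi.1.trans n.lt_succ_self, hi.2⟩
    refine ⟨fun x => um μ (γ.extend (f n x)) * W x, (((map_continuous μ).comp (continuous_subtype_val.comp
      (γ.continuous_extend.comp (hf n)))).subtype_mk _).mul hW, fun x hx j => ⟨?_, ?_⟩⟩
    · beta_reduce
      rcases le_or_gt (f n x) 0 with c | c
      · rw [γ.extend_of_le_zero c, map_one, one_mul]
        exact cl_mono (h5 x) (ih x hx j).1
      · rw [cj_mul, cj_apply, um_coe, ← map_star]
        have c' : n ∈ {i | i < n + 1 ∧ 0 < f i x} := ⟨n.lt_succ_self, c⟩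
        exact mul_mem (mul_mem (mu_mem h1 h2 c' _) (cl_mono (h5 x) (ih x hx j).1)) (mu_mem h1 h2 c' _)
    · rintro ⟨i, hi, c⟩
      rw [cj_mul]
      rcases Nat.lt_succ_iff_lt_or_eq.1 hi with hi | rfl
      · obtain ⟨Z, b1, b2⟩ := (ih x hx j).2 ⟨i, hi, c⟩
        exact ⟨Z, in_mono (h5 x) b1, by
          rwa [← cj_comm (v := um μ _) (mu_comm h1 h2 b1 (by simp) _), cj_dist]⟩
      · obtain ⟨Z, b1, b2⟩ := h4.self_of_nhdsSet x hx j
        exact ⟨Z, in_mono (Set.insert_subset ⟨hi, zero_lt_one.trans_le c⟩ (h5 x)) b1, by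
          rwa [γ.extend_of_one_le c]⟩

theorem legs (hS : AU (N0 D) S.α S.β) {Y ι : Type*} [PseudoMetricSpace Y] [Finite ι] {X : Set Y}
    (hX : IsCompact X) {d : ι → D} (hd : ∀ j, ‖d j‖ ≤ 1) {ε η : ℝ} (hε : 0 < ε) (hη : 0 < η) :
    ∃ W : Y → unitary D, Continuous W ∧ ∀ x ∈ X, ∀ y ∈ X, η ≤ dist x y → ∀ i j,
      ‖cj (W x) (S.α (d i)) * cj (W y) (S.α (d j)) - cj (W y) (S.α (d j)) * cj (W x) (S.α (d i))‖ ≤ ε := by
  obtain ⟨t, -, h1, h2⟩ := finite_cover_balls_of_compact hX (show 0 < η / 4 by positivity)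
  obtain ⟨n, c, -, rfl⟩ := h1.fin_param
  obtain ⟨W, hW, h⟩ := tower hS hX (f := fun i x => if h : i < n then 2 - dist x (c ⟨i, h⟩) / (η / 4) else 0)
    (fun i => by split_ifs <;> fun_prop) d (show 0 < min 1 (ε / 6) by positivity) n
  have h3 := fun x hx j => (h x hx j).2 (by
    obtain ⟨_, ⟨i, rfl⟩, a⟩ := Set.mem_iUnion₂.1 (h2 hx)
    refine ⟨i, i.2, ?_⟩
    rw [dif_pos i.2]
    linarith [(div_lt_one (by positivity)).2 (mem_ball.1 a)])
  refine ⟨W, hW, fun x hx y hy hxy i j => ?_⟩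
  obtain ⟨Z, a1, a2⟩ := h3 x hx i
  obtain ⟨Z', a3, a4⟩ := h3 y hy j
  have a5 := in_comm a1 a3 fun l ⟨b1, b2⟩ ⟨_, b3⟩ => by
    rw [dif_pos b1, sub_pos, div_lt_iff₀ (by positivity)] at b2 b3
    linarith [dist_triangle_right x y (c ⟨l, b1⟩)]
  have a6 : ∀ x i, ‖cj (W x) (S.α (d i))‖ ≤ 1 := fun x i => (NonUnitalStarAlgHom.norm_apply_le _ _).trans
    ((NonUnitalStarAlgHom.norm_apply_le _ _).trans (hd i))
  have a7 := a6 x i
  have a8 := a6 y j
  generalize cj (W x) (S.α (d i)) = a at *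
  generalize cj (W y) (S.α (d j)) = b at *
  rw [dist_eq_norm, lt_min_iff] at a2 a4
  rw [show a * b - b * a = (a - Z) * b - b * (a - Z) + (Z * (b - Z') - (b - Z') * Z) by
    simp only [mul_sub, sub_mul, a5.eq]; abel]
  have a9 : ‖Z‖ ≤ 2 := by linarith [norm_le_norm_add_norm_sub' Z a, norm_sub_rev Z a]
  nlinarith [norm_add_le ((a - Z) * b - b * (a - Z)) (Z * (b - Z') - (b - Z') * Z),
    norm_sub_le ((a - Z) * b) (b * (a - Z)), norm_sub_le (Z * (b - Z')) ((b - Z') * Z),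
    norm_mul_le (a - Z) b, norm_mul_le b (a - Z), norm_mul_le Z (b - Z'), norm_mul_le (b - Z') Z,
    norm_nonneg (a - Z), norm_nonneg (b - Z')]

end SSA

end Pool.Agent.Lib.MP_4aeabb_an
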