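import Pool.Agent.Lib.MP_4aeabb_an.H8Defs
import Pool.Agent.Lib.MP_4aeabb_an.H8Fin

/-!
Simplicity and zero divisors.
-/

namespace Pool.Agent.Lib.MP_4aeabb_an

open Finset Filter Topology TensorProduct
open scoped ComplexOrder CStarAlgebra

universe u

variable {D : Type u} [CStarAlgebra D]

lemma state_pos [PartialOrder D] [StarOrderedRing D] {f : D →ₗ[ℂ] ℂ} (h1 : f 1 = 1)
    (h2 : ∀ x, ‖f x‖ ≤ ‖x‖) {x : D} (hx : 0 ≤ x) : 0 ≤ f x := by
  have hs := (IsSelfAdjoint.of_nonneg hx).star_eq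
  have h3 : ∀ t : ℝ, 2 * (f x).im * t ≤ ‖x‖ ^ 2 := fun t => by
    have a1 := CStarRing.norm_star_mul_self (x := x + (t * Complex.I : ℂ) • (1 : D))
    rw [show star (x + (t * Complex.I : ℂ) • (1 : D)) * (x + (t * Complex.I : ℂ) • (1 : D))
      = x * x + ((t ^ 2 : ℝ) : ℂ) • 1 by
        simp [hs, mul_add, add_mul, smul_smul, sq, mul_mul_mul_comm (t : ℂ) Complex.I]] at a1
    have a2 := h2 (x + (t * Complex.I : ℂ) • (1 : D))
    have a3 := norm_add_le (x * x) (((t ^ 2 : ℝ) : ℂ) • (1 : D))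
    rw [norm_smul, Complex.norm_real, Real.norm_of_nonneg (sq_nonneg t)] at a3
    have a4 := Complex.sq_norm (f (x + (t * Complex.I : ℂ) • (1 : D)))
    rw [Complex.normSq_apply] at a4
    simp only [map_add, map_smul, h1, smul_eq_mul, mul_one, Complex.add_re, Complex.add_im, Complex.mul_re,
      Complex.mul_im, Complex.ofReal_re, Complex.ofReal_im, Complex.I_re, Complex.I_im] at a2 a4
    nlinarith [norm_mul_le x x, norm_one_le' (D := D), sq_nonneg t, norm_nonneg (f x + t * Complex.I),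
      mul_self_nonneg (f x).re, mul_self_nonneg (f x).im]
  have h4 : (f x).im = 0 := by
    by_contra c
    have := h3 ((‖x‖ ^ 2 + 1) / (2 * (f x).im))
    rw [mul_div_cancel₀ _ (by simpa using c)] at this
    linarith
  have h5 := (h2 (algebraMap ℝ D ‖x‖ - x)).trans ((CStarAlgebra.norm_le_iff_le_algebraMap _ (norm_nonneg x)
    (sub_nonneg.2 (IsSelfAdjoint.of_nonneg hx).le_algebraMap_norm_self)).2 (sub_le_self _ hx))
  rw [Algebra.algebraMap_eq_smul_one, ← Complex.coe_smul, map_sub, map_smul, h1] at h5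
  have h6 := (Complex.re_le_norm _).trans h5
  exact Complex.nonneg_iff.2 ⟨by simpa using h6, h4.symm⟩

lemma rep_of {a : D} (h : (1 : D) ∉ Submodule.span ℂ {z | ∃ x y, z = x * a * y}) :
    ∃ π : HRep D, π.op a = 0 ∧ ∃ ξ : π.H, ξ ≠ 0 := by
  let _ := CStarAlgebra.spectralOrder D
  have := CStarAlgebra.spectralOrderedRing D
  obtain ⟨I, hI⟩ : ∃ I, I = Submodule.span ℂ {z | ∃ x y, z = x * a * y} := ⟨_, rfl⟩
  have h0 : ∀ z ∈ I, ∀ w, w * z ∈ I := fun z hz w => by
    rw [hI] at hz ⊢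
    induction hz using Submodule.span_induction with
    | mem _ h => obtain ⟨x, y, rfl⟩ := h; exact Submodule.subset_span ⟨w * x, y, by simp [mul_assoc]⟩
    | zero => simp
    | add _ _ _ _ h1 h2 => rw [mul_add]; exact add_mem h1 h2
    | smul c _ _ h1 => rw [mul_smul_comm]; exact Submodule.smul_mem _ _ h1
  have h1 : ‖I.mkQ 1‖ = 1 := le_antisymm ((Submodule.Quotient.norm_mk_le I 1).trans norm_one_le')
    (QuotientAddGroup.le_norm_iff.2 fun m hm => not_lt.1 fun c => by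
      obtain ⟨w, hw⟩ := (isUnit_one_sub_of_norm_lt_one c).exists_left_inv
      exact h (hI ▸ hw ▸ h0 _ ((Submodule.Quotient.eq I).1 hm.symm) w))
  obtain ⟨g, h2, h3⟩ := exists_dual_vector'' ℂ (I.mkQ 1)
  let f : D →ₚ[ℂ] ℂ := .mk₀ (g.toLinearMap ∘ₗ I.mkQ) fun x hx => state_pos (h3.trans (by simp only [h1]; simp))
    (fun x => (g.le_of_opNorm_le h2 _).trans (by simpa using Submodule.Quotient.norm_mk_le I x)) hx
  refine ⟨⟨f.GNS, f.gnsStarAlgHom⟩, ContinuousLinearMap.ext fun ξ => ?_, (f.toPreGNS 1 : f.GNS), fun c => ?_⟩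
  · change f.gnsNonUnitalStarAlgHom a ξ = 0
    induction ξ using UniformSpace.Completion.induction_on with
    | hp => exact isClosed_eq (by fun_prop) continuous_const
    | ih b =>
      rw [PositiveLinearMap.gnsNonUnitalStarAlgHom_apply_coe, ← norm_eq_zero,
        UniformSpace.Completion.norm_coe, PositiveLinearMap.preGNS_norm_def]
      change √(g (I.mkQ (star (a * f.ofPreGNS b) * (a * f.ofPreGNS b)))).re = 0
      rw [Submodule.mkQ_apply, (Submodule.Quotient.mk_eq_zero I).2 (hI ▸ Submodule.subset_span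
        ⟨_, _, (mul_assoc _ _ _).symm⟩)]
      simp
  · have := congrArg norm c
    rw [UniformSpace.Completion.norm_coe, PositiveLinearMap.preGNS_norm_def] at this
    change √(g (I.mkQ (star 1 * 1))).re = _ at this
    simp only [star_one, mul_one, h3, h1] at this
    simp at this

lemma AU.mem {f g : D → D} (h : AU Set.univ f g) (d : D) :
    g d ∈ closure (Set.range fun v => cj v (f d)) := by
  obtain ⟨F, _, -, h1⟩ := h
  exact mem_closure_of_tendsto (tendsto_iff_dist_tendsto_zero.2 (h1 d)) (.of_forall fun v => ⟨v, rfl⟩)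

lemma AU.zero {f g : D → D} (h : AU Set.univ f g) {d : D} (hd : f d = 0) : g d = 0 := by
  simpa [hd] using h.mem d

theorem simple (S : SSA D) (ht : IsMinTensor S.α S.β) {a : D} (ha : a ≠ 0) :
    ∃ (n : ℕ) (x y : Fin n → D), ∑ i, x i * a * y i = 1 := by
  by_cases h : (1 : D) ∈ Submodule.span ℂ {z | ∃ x y, z = x * a * y}
  · obtain ⟨n, c, g, h1⟩ := Submodule.mem_span_set'.1 h
    choose x y h2 using fun i => (g i).2
    exact ⟨n, fun i => c i • x i, y, by simp only [← h1, h2, smul_mul_assoc]⟩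
  obtain ⟨π, h1, ξ, hξ⟩ := rep_of h
  refine absurd (S.au.symm.zero (S.au_ab.symm.zero ?_)) ha
  have h2 : ∀ ρ : HRep D, ρ.op a = 0 := fun ρ => by
    obtain ⟨e, he⟩ : ∃ e : D ⊗[ℂ] D →ₗ[ℂ] D, ∀ p q, e (p ⊗ₜ q) = S.α p * S.β q :=
      ⟨(Algebra.TensorProduct.lift S.α.toAlgHom S.β.toAlgHom S.comm).toLinearMap, fun _ _ => rfl⟩
    obtain ⟨Θ, hΘ⟩ : ∃ Θ : D ⊗[ℂ] D →ₗ[ℂ] (π.H ⊗[ℂ] ρ.H →L[ℂ] π.H ⊗[ℂ] ρ.H),
        ∀ p q, Θ (p ⊗ₜ q) = mapL (π.hom p) (ρ.hom q) :=
      ⟨lift (LinearMap.mk₂ ℂ (fun p q => mapL (π.hom p) (ρ.hom q))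
        (fun _ _ _ => by rw [map_add, mapL_add_left]) (fun _ _ _ => by rw [map_smul, mapL_smul_left])
        (fun _ _ _ => by rw [map_add, mapL_add_right]) fun _ _ _ => by rw [map_smul, mapL_smul_right]),
        fun _ _ => rfl⟩
    have a1 : ∀ t, ‖Θ t‖ ≤ ‖e t‖ := fun t => by
      obtain ⟨n, p, q, rfl⟩ := exists_sum_tmul_eq t
      simp only [map_sum, he, hΘ]
      exact (ht.norm_eq n p q).1 ⟨π, ρ, rfl⟩
    obtain ⟨J, hJ⟩ : ∃ J : AddSubmonoid D, (J : Set D) = closure (e '' {t | Θ t = 0}) :=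
      ⟨((LinearMap.ker Θ).map e).topologicalClosure.toAddSubmonoid, rfl⟩
    have a0 : IsClosed (J : Set D) := hJ ▸ isClosed_closure
    have a2 : ∀ x y, x * S.α a * y ∈ J := fun x => S.ind (J.comap (AddMonoidHom.mulLeft _))
      (a0.preimage (continuous_const.mul continuous_id)) fun p' q' =>
        S.ind (J.comap ((AddMonoidHom.mulRight _).comp (AddMonoidHom.mulRight (S.α a))))
          (a0.preimage ((continuous_id.mul continuous_const).mul continuous_const))
          (fun p q => by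
            change S.α p * S.β q * S.α a * (S.α p' * S.β q') ∈ (J : Set D)
            refine hJ ▸ subset_closure ⟨(p * a * p') ⊗ₜ (q * q'), ?_, ?_⟩
            · rw [Set.mem_ofPred, hΘ, map_mul, map_mul, show π.hom a = 0 from h1, mul_zero, zero_mul,
                mapL_zero_left]
            · rw [he, mul_assoc (S.α p), ← S.comm, mul_assoc (S.α p), mul_assoc (S.α a),
                ← mul_assoc (S.β q), ← S.comm]
              simp only [map_mul, mul_assoc]) x
    have a3 : S.β a ∈ (J : Set D) := closure_minimal (by rintro _ ⟨v, rfl⟩; exact a2 _ _) a0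
      (S.au_ab.mem a)
    have a4 := closure_minimal (t := {y | ‖Θ (1 ⊗ₜ a)‖ ≤ ‖S.β a - y‖}) (by
      rintro _ ⟨t, ht, rfl⟩
      have := a1 (1 ⊗ₜ a - t)
      rwa [map_sub, map_sub, show Θ t = 0 from ht, sub_zero, he, map_one, one_mul] at this)
      (isClosed_le continuous_const (continuous_const.sub continuous_id).norm) (hJ ▸ a3)
    rw [Set.mem_ofPred, sub_self, norm_zero, hΘ, map_one] at a4
    refine ContinuousLinearMap.ext fun η => ?_
    have a5 := ContinuousLinearMap.le_of_opNorm_le _ a4 (ξ ⊗ₜ η)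
    rw [zero_mul, mapL_tmul, norm_tmul] at a5
    exact norm_le_zero_iff.1 (nonpos_of_mul_nonpos_right a5 (norm_pos_iff.2 hξ))
  have h3 := (ht.norm_eq 1 (fun _ => 1) fun _ => a).2 (show 0 ∈ upperBounds _ by
    rintro _ ⟨π, ρ, rfl⟩
    simp [tensorNorm, sumNorm, h2])
  simpa using h3

lemma zero_div [Nontrivial D] (h : IsEmpty (D ≃⋆ₐ[ℂ] ℂ)) :
    ∃ a b : D, a * a ≠ 0 ∧ b * b ≠ 0 ∧ a * b = 0 := by
  let _ := CStarAlgebra.spectralOrder D
  have := CStarAlgebra.spectralOrderedRing D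
  by_contra! h0
  have h1 : ∀ z : D, 0 ≤ z → z ≠ 0 → IsUnit z := fun z hz h2 => by
    have a0 : 0 < ‖z‖ / 2 := half_pos (norm_pos_iff.2 h2)
    have a1 := CFC.posPart_sub_negPart (z - algebraMap ℝ D (‖z‖ / 2))
      ((IsSelfAdjoint.of_nonneg hz).sub (.algebraMap _ (.all _)))
    have a2 := CFC.posPart_nonneg (z - algebraMap ℝ D (‖z‖ / 2))
    have a3 := CFC.negPart_nonneg (z - algebraMap ℝ D (‖z‖ / 2))
    have a4 : ∀ y : D, 0 ≤ y → y * y = 0 → y = 0 := fun y hy c =>
      CStarRing.star_mul_self_eq_zero_iff y |>.1 (by rwa [(IsSelfAdjoint.of_nonneg hy).star_eq])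
    by_cases c : (z - algebraMap ℝ D (‖z‖ / 2))⁺ = 0
    · rw [c, zero_sub, neg_eq_iff_eq_neg, neg_sub] at a1
      linarith [(CStarAlgebra.norm_le_iff_le_algebraMap z a0.le hz).2 (sub_nonneg.1 (a1 ▸ a3))]
    · have c' := a4 _ a3 (not_not.1 fun c' => h0 _ _ (fun d => c (a4 _ a2 d)) c' (CFC.posPart_mul_negPart _))
      rw [c', sub_zero] at a1
      exact CStarAlgebra.isUnit_of_le _ (sub_nonneg.1 (a1 ▸ a2)) (isStrictlyPositive_algebraMap a0)
  have e := NormedRing.algEquivComplexOfComplete (A := D) fun {a} => ⟨IsUnit.ne_zero, fun ha =>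
    unit_of (h1 _ (mul_star_self_nonneg a) (by simpa using ha)) (h1 _ (star_mul_self_nonneg a)
      (by simpa using ha))⟩
  exact h.false (StarAlgEquiv.ofBijective (StarAlgHom.ofId ℂ D) (by
    convert e.bijective using 1
    exact funext fun c => (e.commutes c).symm)).symm

end Pool.Agent.Lib.MP_4aeabb_an
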