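import Pool.Agent.Lib.MP_4aeabb_an.H8Idx

/-!
Families of loops and homotopies of idempotents.
-/

namespace Pool.Agent.Lib.MP_4aeabb_an

open Finset Metric UniformSpace Topology

/-- an equivalence of idempotents -/
structure Pr {A : Type*} [Ring A] (E F U V : A) : Prop where
  uv : U * V = F
  vu : V * U = E
  ue : U * E = U
  ev : E * V = V

section
variable {A : Type*} [Ring A] {E F U V U0 V0 : A}

lemma Pr.of (h1 : U * V = F) (h2 : V * U = E) (h3 : U * E = U) : Pr E F U (E * V) := by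
  have h4 : E * E = E := by nth_rw 1 [← h2]; rw [mul_assoc, h3, h2]
  exact ⟨by rw [← mul_assoc, h3, h1], by rw [mul_assoc, h2, h4], h3, by rw [← mul_assoc, h4]⟩

lemma Pr.fu (h : Pr E F U V) : F * U = U := by rw [← h.uv, mul_assoc, h.vu, h.ue]

lemma Pr.vf (h : Pr E F U V) : V * F = V := by rw [← h.uv, ← mul_assoc, h.vu, h.ev]

lemma Pr.ff (h : Pr E F U V) : F * F = F := by nth_rw 2 [← h.uv]; rw [← mul_assoc, h.fu, h.uv]

lemma Pr.mul_one (h : Pr E F U V) (h0 : Pr E F U0 V0) : (U * V0 + 1 - F) * (U0 * V + 1 - F) = 1 := by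
  have e1 : V0 * (U0 * V) = V := by rw [← mul_assoc, h0.vu, h.ev]
  have e2 : F * (U0 * V) = U0 * V := by rw [← mul_assoc, h0.fu]
  simp only [mul_sub, sub_mul, mul_add, add_mul, mul_assoc, e1, e2, h0.vf, h.uv, h.ff, one_mul, _root_.mul_one]
  abel

lemma Pr.unit (h : Pr E F U V) (h0 : Pr E F U0 V0) : IsUnit (U * V0 + 1 - F) :=
  ⟨⟨_, _, h.mul_one h0, h0.mul_one h⟩, rfl⟩

lemma Pr.inv (h0 : Pr E F U0 V0) (h1 : U * E = U) (h2 : F * U = U) (h : IsUnit (U * V0 + 1 - F)) :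
    Pr E F U (V0 * Ring.inverse (U * V0 + 1 - F)) := by
  have e1 : U * V0 = F * (U * V0 + 1 - F) := by
    rw [mul_sub, mul_add, ← mul_assoc, h2, h0.ff, _root_.mul_one, add_sub_cancel_right]
  have e2 : U = (U * V0 + 1 - F) * U0 := by
    rw [sub_mul, add_mul, mul_assoc, h0.vu, h1, h0.fu, one_mul, add_sub_cancel_right]
  refine ⟨?_, ?_, h1, by rw [← mul_assoc, h0.ev]⟩
  · rw [← mul_assoc]
    nth_rw 1 [e1]
    rw [Ring.mul_inverse_cancel_right _ _ h]
  · nth_rw 2 [e2]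
    rw [mul_assoc, Ring.inverse_mul_cancel_left _ _ h, h0.vu]

lemma Pr.map {B : Type*} [Ring B] (h : Pr E F U V) {f : A → B} (hf : ∀ a b, f a * f b = f (a * b)) :
    Pr (f E) (f F) (f U) (f V) :=
  ⟨by rw [hf, h.uv], by rw [hf, h.vu], by rw [hf, h.ue], by rw [hf, h.ev]⟩

end

variable {R : Type*} [NormedRing R] [CompleteSpace R]

/-- an equivariant equivalence of two fields of idempotents -/
def Van {Y : Type*} [TopologicalSpace Y] (S : Set Y) (g : Y → Y) (δ δ' : R) (e f : Y → R) : Prop :=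
  ∃ U : Y → R, ContinuousOn U S ∧ ∀ x ∈ S, (∃ V, Pr (e x) (f x) (U x) V) ∧ U x * δ = δ' * U (g x)

theorem van_htp {Y : Type*} [PseudoMetricSpace Y] {S : Set Y} (hS : IsCompact S) {g : Y → Y} {δ : R}
    {Q : ℝ × Y → R} (hc : ContinuousOn Q (Set.Icc 0 1 ×ˢ S))
    (h : ∀ t ∈ Set.Icc (0 : ℝ) 1, ∀ x ∈ S, Q (t, x) * Q (t, x) = Q (t, x) ∧ Q (t, x) * δ = δ * Q (t, g x)) :
    Van S g δ δ (fun x => Q (0, x)) fun x => Q (1, x) := by
  have hK := (isCompact_Icc (a := (0 : ℝ)) (b := 1)).prod hS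
  obtain ⟨C, hC⟩ := hK.exists_bound_of_continuousOn hc
  obtain ⟨ε, e1, e2⟩ := exists_pos_mul_lt zero_lt_one (2 * |C|)
  obtain ⟨η, h1, h2⟩ := Metric.uniformContinuousOn_iff.1 (hK.uniformContinuousOn_of_continuous hc) ε e1
  have h3 : ∀ t ∈ Set.Icc (0 : ℝ) 1, ContinuousOn (fun x => Q (t, x)) S := fun t ht =>
    hc.comp (by fun_prop) fun x hx => ⟨ht, hx⟩
  have h4 : ∀ s ∈ Set.Icc (0 : ℝ) 1, ∀ t ∈ Set.Icc (0 : ℝ) 1, dist s t < η →
      Van S g δ δ (fun x => Q (s, x)) fun x => Q (t, x) := fun s hs t ht hst =>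
    ⟨fun x => Q (t, x) * Q (s, x), (h3 t ht).mul (h3 s hs), fun x hx => by
      obtain ⟨a1, a2⟩ := h s hs x hx
      obtain ⟨a3, a4⟩ := h t ht x hx
      have a5 := h2 (s, x) ⟨hs, hx⟩ (t, x) ⟨ht, hx⟩ (by simpa [h1] using hst)
      have a6 := (hC (s, x) ⟨hs, hx⟩).trans (le_abs_self C)
      have a7 := (hC (t, x) ⟨ht, hx⟩).trans (le_abs_self C)
      refine ⟨?_, by rw [mul_assoc, a2, ← mul_assoc, a4, mul_assoc]⟩
      beta_reduce
      generalize Q (s, x) = e at *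
      generalize Q (t, x) = f at *
      have b1 : IsUnit (1 - ((e - f) * e - f * (e - f))) := isUnit_one_sub_of_norm_lt_one (by
        rw [dist_eq_norm] at a5
        nlinarith [norm_sub_le ((e - f) * e) (f * (e - f)), norm_mul_le (e - f) e, norm_mul_le f (e - f),
          norm_nonneg (e - f), norm_nonneg e, norm_nonneg f])
      have b2 : f * e = f * (1 - ((e - f) * e - f * (e - f))) := by
        simp only [mul_sub, sub_mul, ← mul_assoc, a1, a3, mul_one]; abel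
      have b3 : f * e = (1 - ((e - f) * e - f * (e - f))) * e := by
        simp only [mul_sub, sub_mul, mul_assoc, a1, a3, one_mul]; abel
      refine ⟨_, Pr.of (V := e * Ring.inverse (1 - ((e - f) * e - f * (e - f)))) ?_ ?_
        (by rw [mul_assoc, a1])⟩
      · rw [← mul_assoc, mul_assoc f, a1, b2, Ring.mul_inverse_cancel_right _ _ b1]
      · rw [b3, mul_assoc, Ring.inverse_mul_cancel_left _ _ b1, a1]⟩
  refine (isPreconnected_Icc (a := (0 : ℝ)) (b := 1)).induction₂' (fun s t => Van S g δ δ (fun x => Q (s, x)) fun x => Q (t, x))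
    (fun s hs => ?_) ?_ (by simp) (by simp)
  · filter_upwards [self_mem_nhdsWithin, mem_nhdsWithin_of_mem_nhds (ball_mem_nhds s h1)] with t ht a
    exact ⟨h4 s hs t ht (mem_ball'.1 a), h4 t ht s hs a⟩
  · rintro r s t - - - ⟨U, u1, u2⟩ ⟨U', u3, u4⟩
    refine ⟨fun x => U' x * U x, u3.mul u1, fun x hx => ?_⟩
    obtain ⟨⟨V, a1⟩, a2⟩ := u2 x hx
    obtain ⟨⟨V', a3⟩, a4⟩ := u4 x hx
    exact ⟨⟨_, Pr.of (V := V * V') (by rw [mul_assoc, ← mul_assoc (U x), a1.uv, a3.ev, a3.uv])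
      (by rw [mul_assoc, ← mul_assoc V', a3.vu, a1.fu, a1.vu]) (by rw [mul_assoc, a1.ue])⟩,
      by rw [mul_assoc, a2, ← mul_assoc, a4, mul_assoc]⟩

variable [NormedAlgebra ℂ R] {N : ℕ}

/-- the Fejer mean in the Wiener algebra -/
noncomputable def pf (N : ℕ) (f : ℂ → R) : W R := fej0 N f

omit [CompleteSpace R] in
lemma pf_eq (f : ℂ → R) :
    pf N f = ∑ a ∈ range N, ∑ b ∈ range N, sg ((a : ℤ) - b) (fc N f (a - b)) :=
  (map_sum (Completion.toCompl (α := L R)) _ _).trans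
    (sum_congr rfl fun _ _ => map_sum (Completion.toCompl (α := L R)) _ _)

omit [CompleteSpace R] in
lemma pf_const (hN : 0 < N) (a : R) : pf N (fun _ => a) = sg 0 a := by
  obtain ⟨x, hx⟩ : ∃ x : L R, x = fej0 N (fun _ => a) - .single 0 a := ⟨_, rfl⟩
  have := norm_le_ev (x := x) (B := x.coeff.support.sup Int.natAbs) (fun c hc => by
    rw [← Int.natCast_natAbs]; exact_mod_cast le_sup (f := Int.natAbs) hc) le_rfl fun z hz => by
      rw [hx, map_sub, ev_single]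
      simpa using fej_est hN (f := fun _ => a) hz le_rfl (ε := 0) (by simp)
  rw [mul_zero, ← Completion.norm_coe, norm_le_zero_iff, hx, Completion.coe_sub, sub_eq_zero] at this
  exact this

lemma pf_tw (hN : 0 < N) {ζ : ℂ} (hζ : ‖ζ‖ = 1) (h1 : ζ ^ N = 1) {f f' : ℂ → R} {a b : R}
    (h : ∀ z, ‖z‖ = 1 → f z * a = b * f' (ζ * z)) : pf N f * sg 0 a = sg 0 b * rho hζ (pf N f') := by
  simp only [pf_eq, map_sum, sum_mul, mul_sum, rho_sg, sg_mul, add_zero, zero_add]
  refine sum_congr rfl fun i _ => sum_congr rfl fun j _ => congrArg _ ?_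
  rw [fc, fc, ← mu_shift hN h1 (fun ω => ω ^ (-((i : ℤ) - j)) • f' ω), smul_comm]
  simp only [smul_mul_assoc, mul_smul_comm, sum_mul, mul_sum, smul_sum]
  refine sum_congr rfl fun ω hω => congrArg _ ?_
  rw [h ω (mu_norm hN hω), smul_smul, mul_zpow, ← mul_assoc, ← zpow_add₀ (ne0 hζ), add_neg_cancel,
    zpow_zero, one_mul]

lemma rho_one (x : W R) : rho (norm_one (α := ℂ)) x = x := W_ext fun c => by rw [co_rho]; simp

theorem toep {Y : Type*} [PseudoMetricSpace Y] {S : Set Y} (hS : IsCompact S) {Φ : Y → ℂ → R}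
    (hc : ContinuousOn (fun z : Y × ℂ => Φ z.1 z.2) (S ×ˢ sphere 0 1)) {E F U0 V0 : R}
    (h0 : Pr E F U0 V0) (h : ∀ y ∈ S, ∀ z, ‖z‖ = 1 → ∃ V, Pr E F (Φ y z) V) {p : ℕ} (hp : 0 < p) :
    ∃ N, 0 < N ∧ p ∣ N ∧ ∃ vf : W R → W R, ContinuousOn (fun y => pf N (Φ y)) S ∧
      ContinuousOn (fun y => vf (pf N (Φ y))) S ∧ ∀ y ∈ S, Inv N E F (pf N (Φ y)) (vf (pf N (Φ y))) := by
  have hK := hS.prod (isCompact_sphere (0 : ℂ) 1)
  obtain ⟨η, h1, h2⟩ := (hK.image_of_continuousOn (f := fun z => Φ z.1 z.2 * V0 + 1 - F)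
    (((hc.mul continuousOn_const).add continuousOn_const).sub continuousOn_const)
    ).exists_cthickening_subset_open Units.isOpen (by
      rintro _ ⟨z, hz, rfl⟩
      obtain ⟨V, hV⟩ := h z.1 hz.1 z.2 (by simpa using hz.2)
      exact hV.unit h0)
  obtain ⟨ε, e1, e2⟩ := exists_pos_mul_lt h1 (2 * ‖V0‖)
  obtain ⟨A, hA, h3⟩ := quad hK hc e1
  obtain ⟨M, hM⟩ := exists_nat_gt (4 * A / ε)
  have hM0 : (0 : ℝ) < M := lt_of_le_of_lt (by positivity) hM
  have hN : 0 < p * M := Nat.mul_pos hp (by exact_mod_cast hM0)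
  have h4 : ∀ y ∈ S, IsUnit (pf (p * M) (Φ y) * sg 0 V0 + 1 - sg 0 F) := fun y hy => by
    have := wiener (fej0 (p * M) (Φ y) * .single 0 V0 + 1 - .single 0 F) fun z hz => by
      refine h2 (mem_cthickening_of_dist_le _ _ _ _ ⟨(y, z), ⟨hy, by simpa using hz⟩, rfl⟩ ?_)
      have a1 := fej_est hN hz hA fun w hw => by
        simpa using h3 (y, w) ⟨hy, by simpa using hw⟩ (y, z) ⟨hy, by simpa using hz⟩
      have a2 : 4 * A / (p * M : ℕ) ≤ ε := by
        rw [div_lt_iff₀ e1] at hM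
        rw [div_le_iff₀ (by exact_mod_cast hN)]
        have : (1 : ℝ) ≤ p := by exact_mod_cast hp
        push_cast
        nlinarith [mul_pos hM0 e1]
      simp only [map_sub, map_add, map_mul, map_one, ev_single, zpow_zero, one_smul, dist_eq_norm,
        add_sub_add_right_eq_sub, sub_sub_sub_cancel_right, ← sub_mul]
      nlinarith [norm_mul_le (ev hz (fej0 (p * M) (Φ y)) - Φ y z) V0, norm_nonneg V0]
    rwa [Completion.coe_sub, Completion.coe_add, Completion.coe_mul, Completion.coe_one] at this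
  have h5 : ContinuousOn (fun y => pf (p * M) (Φ y)) S := by
    simp only [pf_eq, fc]
    refine continuousOn_finsetSum _ fun a _ => continuousOn_finsetSum _ fun b _ =>
      (sg_cont _).comp_continuousOn (ContinuousOn.const_smul (continuousOn_finsetSum _ fun ω hω =>
        ContinuousOn.const_smul ?_ _) _)
    exact hc.comp (f := fun y => (y, ω)) (by fun_prop) fun y hy => ⟨hy, by simpa using mu_norm hN hω⟩
  refine ⟨p * M, hN, dvd_mul_right _ _, fun P => sg 0 V0 * Ring.inverse (P * sg 0 V0 + 1 - sg 0 F), h5,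
    continuousOn_const.mul fun y hy => ?_, fun y hy => ?_⟩
  · obtain ⟨u, hu⟩ := h4 y hy
    exact ContinuousAt.comp_continuousWithinAt (hu ▸ NormedRing.inverse_continuousAt u)
      (((h5 y hy).mul continuousWithinAt_const).add continuousWithinAt_const |>.sub
        continuousWithinAt_const)
  have a1 := pf_tw hN norm_one (one_pow _) (f := Φ y) (f' := Φ y) (a := E) (b := 1) fun z hz => by
    obtain ⟨V, hV⟩ := h y hy z hz
    rw [hV.ue, one_mul, one_mul]
  have a2 := pf_tw hN norm_one (one_pow _) (f := Φ y) (f' := Φ y) (a := 1) (b := F) fun z hz => by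
    obtain ⟨V, hV⟩ := h y hy z hz
    rw [one_mul, hV.fu, mul_one]
  rw [rho_one, sg_one, one_mul] at a1
  rw [rho_one, sg_one, mul_one] at a2
  have a3 := (h0.map (f := sg 0) fun a b => by rw [sg_mul, add_zero]).inv a1 a2.symm (h4 y hy)
  refine ⟨fun c hc => ?_, a3.uv, a3.vu, a3.ue, a3.ev⟩
  simp only [pf_eq, map_sum, co_sg]
  refine sum_eq_zero fun a ha => sum_eq_zero fun b hb => if_neg ?_
  rw [mem_range] at ha hb
  rw [mem_Icc] at hc
  omega

end Pool.Agent.Lib.MP_4aeabb_an
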