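import Pool.Agent.Lib.MP_4aeabb_an.H8Cl

/-!
The Wiener algebra with coefficients in a Banach algebra.
-/

namespace Pool.Agent.Lib.MP_4aeabb_an

open Finset AddMonoidAlgebra UniformSpace

variable {R : Type*} [NormedRing R]

/-- Laurent polynomials -/
abbrev L (R : Type*) [NormedRing R] := AddMonoidAlgebra R ℤ

noncomputable def nrm (x : L R) : ℝ := x.coeff.sum fun _ a => ‖a‖

lemma nrm_single (c : ℤ) (a : R) : nrm (single c a) = ‖a‖ := Finsupp.sum_single_index norm_zero

lemma nrm_add (x y : L R) : nrm (x + y) ≤ nrm x + nrm y := by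
  have h : ∀ z : L R, z.coeff.support ⊆ x.coeff.support ∪ y.coeff.support →
      nrm z = ∑ c ∈ x.coeff.support ∪ y.coeff.support, ‖z.coeff c‖ := fun z hz =>
    Finsupp.sum_of_support_subset _ hz _ fun _ _ => norm_zero
  rw [h x subset_union_left, h y subset_union_right, h (x + y) Finsupp.support_add, ← sum_add_distrib]
  exact sum_le_sum fun c _ => norm_add_le _ _

lemma le_nrm {f : L R → ℝ} (h0 : f 0 ≤ 0) (ha : ∀ x y, f (x + y) ≤ f x + f y) {C : ℝ}
    (h : ∀ c a, f (single c a) ≤ C * ‖a‖) (x : L R) : f x ≤ C * nrm x := by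
  conv_lhs => rw [← sum_coeff_single x]
  rw [nrm, Finsupp.sum, Finsupp.sum, mul_sum]
  exact (le_sum_of_subadditive f h0 ha _ _).trans (sum_le_sum fun c _ => h _ _)

noncomputable scoped instance : SeminormedRing (L R) where
  __ := AddGroupSeminorm.toSeminormedAddCommGroup ⟨nrm, rfl, nrm_add, fun x => by
    rw [nrm, coeff_neg, Finsupp.sum_neg_index fun _ => norm_zero]
    simp [nrm]⟩
  __ := (inferInstance : Ring (L R))
  norm_mul_le x y := by
    change nrm (x * y) ≤ nrm x * nrm y
    rw [mul_comm]
    refine le_nrm (f := fun x => nrm (x * y)) (by simp [nrm]) (fun a b => by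
      simpa only [add_mul] using nrm_add _ _) (fun c a => ?_) x
    rw [mul_comm]
    refine le_nrm (f := fun y => nrm (single c a * y)) (by simp [nrm]) (fun a b => by
      simpa only [mul_add] using nrm_add _ _) (fun d b => ?_) y
    rw [single_mul_single, nrm_single]
    exact norm_mul_le _ _

lemma norm_single (c : ℤ) (a : R) : ‖(single c a : L R)‖ = ‖a‖ := nrm_single c a

lemma hom_le {B : Type*} [SeminormedAddCommGroup B] (f : L R →+ B)
    (h : ∀ c a, ‖f (single c a)‖ ≤ ‖a‖) (x : L R) : ‖f x‖ ≤ ‖x‖ := by
  exact (le_nrm (f := fun x => ‖f x‖) (C := 1) (by simp) (fun x y => by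
    rw [map_add]; exact norm_add_le _ _) (by simpa only [one_mul] using h) x).trans_eq (one_mul _)

lemma hom_cont {B : Type*} [SeminormedAddCommGroup B] (f : L R →+ B)
    (h : ∀ c a, ‖f (single c a)‖ ≤ ‖a‖) : Continuous f :=
  AddMonoidHomClass.continuous_of_bound f 1 fun x => by simpa using hom_le f h x

/-- the Wiener algebra -/
abbrev W (R : Type*) [NormedRing R] := Completion (L R)

noncomputable def co0 (c : ℤ) : L R →+ R := (Finsupp.applyAddHom c).comp coeffAddEquiv.toAddMonoidHom

lemma co0_le (c d : ℤ) (a : R) : ‖co0 c (single d a)‖ ≤ ‖a‖ := by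
  change ‖Finsupp.single d a c‖ ≤ _
  rw [Finsupp.single_apply]
  split_ifs <;> simp

noncomputable def fl0 (q : ℤ → Prop) [DecidablePred q] : L R →+ L R :=
  coeffAddEquiv.symm.toAddMonoidHom.comp ((Finsupp.filterAddHom q).comp coeffAddEquiv.toAddMonoidHom)

lemma fl0_le (q : ℤ → Prop) [DecidablePred q] (d : ℤ) (a : R) : ‖fl0 q (single d a)‖ ≤ ‖a‖ := by
  change ‖(ofCoeff ((Finsupp.single d a).filter q) : L R)‖ ≤ _
  by_cases h : q d
  · rw [Finsupp.filter_single_of_pos _ h]; exact (norm_single d a).le
  · rw [Finsupp.filter_single_of_neg _ h]; exact norm_zero.le.trans (norm_nonneg _)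

/-- truncation -/
noncomputable def fl (q : ℤ → Prop) [DecidablePred q] : W R →+ W R :=
  (fl0 q).completion (hom_cont _ (fl0_le q))

lemma fl_cont (q : ℤ → Prop) [DecidablePred q] : Continuous (fl (R := R) q) :=
  AddMonoidHom.continuous_completion _ _

lemma fl_coe (q : ℤ → Prop) [DecidablePred q] (x : L R) : fl q (x : W R) = fl0 q x :=
  AddMonoidHom.completion_coe _ _ _

/-- monomials -/
noncomputable def sg (c : ℤ) (a : R) : W R := (single c a : L R)

lemma sg_mul (c d : ℤ) (a b : R) : sg c a * sg d b = sg (c + d) (a * b) := by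
  rw [sg, sg, ← Completion.coe_mul, single_mul_single, sg]

lemma sg_zero (c : ℤ) : sg c (0 : R) = 0 := by rw [sg, single_zero, Completion.coe_zero]

lemma sg_add (c : ℤ) (a b : R) : sg c (a + b) = sg c a + sg c b := by
  rw [sg, single_add, Completion.coe_add, sg, sg]

lemma sg_one : sg 0 (1 : R) = 1 := rfl

lemma sg_cont (c : ℤ) : Continuous (sg (R := R) c) := (Completion.continuous_coe _).comp
  (AddMonoidHomClass.continuous_of_bound (singleAddHom c) 1 fun a => by
    rw [one_mul]; exact (norm_single c a).le)

variable [CompleteSpace R]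

/-- coefficients -/
noncomputable def co (c : ℤ) : W R →+ R := (co0 c).extension (hom_cont _ (co0_le c))

lemma co_cont (c : ℤ) : Continuous (co (R := R) c) := AddMonoidHom.continuous_extension _ _

lemma co_coe (c : ℤ) (x : L R) : co c (x : W R) = x.coeff c := AddMonoidHom.extension_coe _ _ _

lemma co_sg (c d : ℤ) (a : R) : co c (sg d a) = if d = c then a else 0 := by
  rw [sg, co_coe, coeff_single, Finsupp.single_apply]

lemma co_sg_mul (c d : ℤ) (a : R) (x : W R) : co c (sg d a * x) = a * co (c - d) x := by
  induction x using Completion.induction_on with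
  | hp => exact isClosed_eq ((co_cont c).comp (by fun_prop)) (continuous_const.mul (co_cont _))
  | ih x => rw [sg, ← Completion.coe_mul, co_coe, co_coe, coeff_single_mul_apply, neg_add_eq_sub]

lemma co_mul_sg (c d : ℤ) (a : R) (x : W R) : co c (x * sg d a) = co (c - d) x * a := by
  induction x using Completion.induction_on with
  | hp => exact isClosed_eq ((co_cont c).comp (by fun_prop)) ((co_cont _).mul continuous_const)
  | ih x => rw [sg, ← Completion.coe_mul, co_coe, co_coe, coeff_mul_single_apply, sub_eq_add_neg]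

lemma co_fl (c : ℤ) (q : ℤ → Prop) [DecidablePred q] (x : W R) :
    co c (fl q x) = if q c then co c x else 0 := by
  induction x using Completion.induction_on with
  | hp =>
    refine isClosed_eq ((co_cont c).comp (fl_cont q)) ?_
    split_ifs
    exacts [co_cont c, continuous_const]
  | ih x => rw [fl_coe, co_coe, co_coe]; exact Finsupp.filter_apply _ _ _

lemma fl_mem (S : Finset ℤ) (x : W R) : fl (· ∈ S) x = ∑ c ∈ S, sg c (co c x) := by
  induction x using Completion.induction_on with
  | hp => exact isClosed_eq (fl_cont _) (continuous_finsetSum _ fun c _ => (sg_cont c).comp (co_cont c))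
  | ih x =>
    simp only [fl_coe, co_coe, sg]
    refine Eq.trans ?_ (map_sum Completion.toCompl (fun c => single c (x.coeff c)) S)
    refine congrArg _ (coeff_injective (Finsupp.ext fun c => ?_))
    rw [coeff_sum, Finsupp.finsetSum_apply]
    simp only [coeff_single, Finsupp.single_apply, sum_ite_eq']
    exact Finsupp.filter_apply _ _ _

lemma W_ext {x y : W R} (h : ∀ c, co c x = co c y) : x = y := by
  rw [← sub_eq_zero]
  obtain ⟨z, hz⟩ : ∃ z, z = x - y := ⟨_, rfl⟩
  have h1 : ∀ c, co c z = 0 := fun c => by rw [hz, map_sub, h, sub_self]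
  rw [← hz, ← norm_le_zero_iff]
  refine le_of_forall_pos_le_add fun ε hε => ?_
  obtain ⟨u, hu⟩ := Completion.denseRange_coe.exists_dist_lt z (half_pos hε)
  have h2 : ∀ v : W R, ‖fl (· ∈ u.coeff.support) v‖ ≤ ‖v‖ := fun v => by
    induction v using Completion.induction_on with
    | hp => exact isClosed_le (fl_cont _).norm continuous_norm
    | ih v => rw [fl_coe, Completion.norm_coe, Completion.norm_coe]; exact hom_le _ (fl0_le _) v
  have h3 := h2 (z - u)
  rw [map_sub, fl_mem, sum_eq_zero fun c _ => by rw [h1, sg_zero], zero_sub, norm_neg, fl_coe,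
    show fl0 (· ∈ u.coeff.support) u = u from coeff_injective (Finsupp.ext fun c => by
      refine (Finsupp.filter_apply _ _ _).trans ?_
      split_ifs with h
      · rfl
      · exact (Finsupp.notMem_support_iff.1 h).symm)] at h3
  rw [dist_eq_norm] at hu
  linarith [norm_le_norm_sub_add z u]

lemma eq_sum {x : W R} (S : Finset ℤ) (h : ∀ c, c ∉ S → co c x = 0) : x = ∑ c ∈ S, sg c (co c x) := by
  rw [← fl_mem]
  refine W_ext fun c => ?_
  rw [co_fl]
  split_ifs with hc
  exacts [rfl, h c hc]

lemma co_mul {x : W R} (S : Finset ℤ) (h : ∀ c, c ∉ S → co c x = 0) (y : W R) (i : ℤ) :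
    co i (x * y) = ∑ c ∈ S, co c x * co (i - c) y := by
  conv_lhs => rw [eq_sum S h]
  rw [sum_mul, map_sum]
  exact sum_congr rfl fun c _ => co_sg_mul _ _ _ _

lemma co_mul' {y : W R} (S : Finset ℤ) (h : ∀ c, c ∉ S → co c y = 0) (x : W R) (i : ℤ) :
    co i (x * y) = ∑ c ∈ S, co (i - c) x * co c y := by
  conv_lhs => rw [eq_sum S h]
  rw [mul_sum, map_sum]
  exact sum_congr rfl fun c _ => co_mul_sg _ _ _ _

variable [NormedAlgebra ℂ R] {ζ : ℂ} (hζ : ‖ζ‖ = 1)

omit [CompleteSpace R] in
noncomputable def rho0 : L R →+* L R := liftNCRingHom singleZeroRingHom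
  { toFun := fun c => single c.toAdd (algebraMap ℂ R (ζ ^ c.toAdd))
    map_one' := by rw [toAdd_one, zpow_zero, map_one]; rfl
    map_mul' := fun c d => by
      rw [single_mul_single, toAdd_mul, zpow_add₀ (by rintro rfl; simp at hζ), map_mul] }
  fun a c => single_commute_single (.all _ _) (Algebra.commutes _ _).symm

omit [CompleteSpace R] in
lemma rho0_single (c : ℤ) (a : R) : rho0 hζ (single c a) = single c (ζ ^ c • a) := by
  refine (liftNCRingHom_single _ _ _ _ _).trans ?_
  change single 0 a * single c _ = _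
  rw [single_mul_single, zero_add, Algebra.smul_def, Algebra.commutes]
  rfl

omit [CompleteSpace R] in
lemma rho0_cont : Continuous (rho0 (R := R) hζ) := hom_cont (rho0 hζ).toAddMonoidHom fun c a => by
  change ‖rho0 hζ _‖ ≤ _
  rw [rho0_single, norm_single, norm_smul, norm_zpow, hζ, one_zpow, one_mul]

/-- rotation of the circle -/
noncomputable def rho : W R →+* W R := Completion.mapRingHom (rho0 hζ) (rho0_cont hζ)

lemma co_rho (c : ℤ) (x : W R) : co c (rho hζ x) = ζ ^ c • co c x := by
  induction x using Completion.induction_on with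
  | hp => exact isClosed_eq ((co_cont c).comp Completion.continuous_map) ((co_cont c).const_smul _)
  | ih x =>
    rw [rho, Completion.mapRingHom_coe, co_coe, co_coe]
    induction x using induction_linear with
    | zero => simp
    | add x y h1 h2 => simp [h1, h2]
    | single d a =>
      rw [rho0_single, coeff_single, coeff_single, Finsupp.single_apply, Finsupp.single_apply]
      split_ifs with h
      · rw [h]
      · simp

end Pool.Agent.Lib.MP_4aeabb_an
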